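import Mathlib
import Pool.Agent.CGame.Defs

/-!
# The clique function
-/

set_option autoImplicit false

namespace Pool.Agent.Clq

open Pool.Agent.FewNeg Pool.Agent.CGame

/-- The possible edges of a graph with the vertices `0, ..., n - 1`. -/
abbrev Edge (n : ℕ) : Type := {p : Fin n × Fin n // p.1 < p.2}

/-- The clique function: the graph on `n` vertices with the edges `p` with `x p = true` has a clique
with `K` vertices. -/
def cliqueF (n K : ℕ) : BF (Edge n) := fun x =>
  decide (∃ c : Finset (Fin n), K ≤ c.card ∧ ∀ p : Edge n, p.1.1 ∈ c → p.1.2 ∈ c → x p = true)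

/-- The Boolean function `f` is decided by a protocol for `Game`, where Bob knows the values of the
variables in `S` from the beginning: all functions used by Alice have monotone circuits with at most
`s` gates, and the product of the numbers `T + 1`, over the rounds of any play of the game, is at
most `P`. -/
def DecidesE {ι : Type} (S : Finset ι) (s P : ℕ) (f : BF ι) : Prop :=
  ∃ (d : ℕ) (G : (ι → Bool) → Game ι), (∀ x y : ι → Bool, (∀ i ∈ S, x i = y i) → G x = G y) ∧
    (∀ x, (G x).Le s d P) ∧ ∀ x, (G x).val x = f x

/-- The clique function of `k`-partite graphs with the vertices `Fin k × Fin q`; there is a variable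
for every ordered pair of vertices, the ones from a part to a later part are used. -/
def pclF (k q : ℕ) : BF ((Fin k × Fin q) × (Fin k × Fin q)) := fun y =>
  decide (∃ g : Fin k → Fin q, ∀ i j : Fin k, i < j → y ((i, g i), (j, g j)) = true)

/-! ## Test inputs for the monotone lower bound -/

/-- `u` and `v` are connected by edges in `L`. -/
def Conn {V : Type} (L : Finset (V × V)) (u v : V) : Prop :=
  Relation.EqvGen (fun a b => (a, b) ∈ L) u v

/-- The colourings for which all edges in `L` have two ends of the same colour. -/
def Col {V A : Type} [Fintype V] [DecidableEq V] [Fintype A] [DecidableEq A] (L : Finset (V × V)) :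
    Finset (V → A) :=
  Finset.univ.filter fun c => ∀ p ∈ L, c p.1 = c p.2

/-- The choices of one vertex in every part which contain the vertices in `W`. -/
def Trv {k q : ℕ} (W : Finset (Fin k × Fin q)) : Finset (Fin k → Fin q) :=
  Finset.univ.filter fun g => ∀ u ∈ W, g u.1 = u.2

/-- The vertices in `W` have different colours: in the complete multipartite graph of the colouring
`c` they are a clique. -/
def WN {V A : Type} (c : V → A) (W : Finset V) : Prop :=
  ∀ u ∈ W, ∀ v ∈ W, u ≠ v → c u ≠ c v

/-- Some edge in `L` is an edge of the complete multipartite graph of the colouring `c`. -/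
def LN {V A : Type} (c : V → A) (L : Finset (V × V)) : Prop := ∃ p ∈ L, c p.1 ≠ c p.2

/-- The vertices in `W` are in the clique `g`. -/
def WP {k q : ℕ} (g : Fin k → Fin q) (W : Finset (Fin k × Fin q)) : Prop := ∀ u ∈ W, g u.1 = u.2

/-- Two vertices of the clique `g` are connected by `L`. -/
def LP {k q : ℕ} (g : Fin k → Fin q) (L : Finset ((Fin k × Fin q) × (Fin k × Fin q))) : Prop :=
  ∃ u v, u ≠ v ∧ Conn L u v ∧ g u.1 = u.2 ∧ g v.1 = v.2

/-! ## Lines -/

/-- The point `(u, x)` is on the line `l`. -/
def OnL {V F : Type} [Field F] (c : V → F) (l : F × F) (u : V) (x : F) : Prop :=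
  x = l.1 + c u * l.2

/-- The line through the points `(u, x)` and `(v, y)`. -/
def lin {V F : Type} [Field F] (c : V → F) (u v : V) (x y : F) : F × F :=
  (x - c u * ((y - x) / (c v - c u)), (y - x) / (c v - c u))

/-- The set `Ls` of lines contains no spread cliques: whenever `w` is a choice of a point in each of
`k` parts such that all lines through two of these points are in `Ls`, the points are on a line. -/
def NoMix {k q : ℕ} {F : Type} [Field F] (c : Fin k × Fin q → F) (Ls : Finset (F × F)) : Prop :=
  ∀ w : Fin k → Fin q × F,
    (∀ i j : Fin k, i < j → lin c (i, (w i).1) (j, (w j).1) (w i).2 (w j).2 ∈ Ls) →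
      ∃ l : F × F, ∀ i, OnL c l (i, (w i).1) (w i).2

end Pool.Agent.Clq
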