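import Mathlib
import Pool.Agent.Clq.Defs

/-!
# Counting the test inputs

PACKAGE. Prove `conn_touched`, `Col_conn`, `Col_insert`, `Trv_insert` (helper lemmas allowed, keep the
statements).

PROOFS. `conn_touched`: every edge of the path from `u` to `v` is in `L`; by induction on `EqvGen`
either `u = v` or both are in `L.image Prod.fst ∪ L.image Prod.snd`. `Col_conn`: induction on
`EqvGen`. `Col_insert`: the map `(c, a) ↦ (fun w => c w + if Conn L u w then a else 0)` from
`Col (insert (u, v) L) × A` to `Col L` is well defined (both ends of an edge of `L` are connected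
to `u`, or none of them) and injective: the value at `u` minus the value at `v` is
`c u + a - c v = a`, as `v` is not connected to `u` and `c u = c v`. `Trv_insert`: if some `u ∈ W` has
`u.1 = w.1` then `u.2 ≠ w.2` (else `u = w`) and `Trv (insert w W)` is empty. Otherwise the map
`(g, b) ↦ Function.update g w.1 b` from `Trv (insert w W) × Fin q` to `Trv W` is injective, as
`g w.1 = w.2`.
-/

set_option autoImplicit false

namespace Pool.Agent.Clq

open Pool.Agent.FewNeg

theorem conn_touched {V : Type} [DecidableEq V] {L : Finset (V × V)} {u v : V} (h : Conn L u v)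
    (huv : u ≠ v) : u ∈ L.image Prod.fst ∪ L.image Prod.snd ∧
      v ∈ L.image Prod.fst ∪ L.image Prod.snd := by
  have key : u = v ∨ (u ∈ L.image Prod.fst ∪ L.image Prod.snd ∧
      v ∈ L.image Prod.fst ∪ L.image Prod.snd) := by
    clear huv
    unfold Conn at h
    induction h with
    | rel a b hab =>
      right
      refine ⟨Finset.mem_union_left _ (Finset.mem_image.2 ⟨(a, b), hab, rfl⟩),
        Finset.mem_union_right _ (Finset.mem_image.2 ⟨(a, b), hab, rfl⟩)⟩
    | refl a => exact Or.inl rfl
    | symm a b _ ih =>
      rcases ih with ih | ih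
      · exact Or.inl ih.symm
      · exact Or.inr ⟨ih.2, ih.1⟩
    | trans a b c _ _ ih1 ih2 =>
      rcases ih1 with rfl | ih1
      · exact ih2
      · rcases ih2 with rfl | ih2
        · exact Or.inr ih1
        · exact Or.inr ⟨ih1.1, ih2.2⟩
  exact key.resolve_left huv

variable {V A : Type} [Fintype V] [DecidableEq V] [Fintype A] [DecidableEq A]

theorem Col_conn {L : Finset (V × V)} {c : V → A} (hc : c ∈ Col L) {u v : V} (h : Conn L u v) :
    c u = c v := by
  unfold Conn at h
  induction h with
  | rel a b hab => exact (Finset.mem_filter.1 hc).2 (a, b) hab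
  | refl a => rfl
  | symm a b _ ih => exact ih.symm
  | trans a b d _ _ ih1 ih2 => exact ih1.trans ih2

theorem Col_insert [AddCommGroup A] {L : Finset (V × V)} {u v : V} (h : ¬ Conn L u v) :
    (Col (A := A) (insert (u, v) L)).card * Fintype.card A ≤ (Col (A := A) L).card := by
  classical
  rw [← Finset.card_univ, ← Finset.card_product]
  refine Finset.card_le_card_of_injOn
    (fun p : (V → A) × A => fun w => p.1 w + if Conn L u w then p.2 else 0) ?_ ?_
  · rintro ⟨c, a⟩ hp
    rw [Finset.mem_coe, Finset.mem_product] at hp
    have hc := (Finset.mem_filter.1 hp.1).2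
    rw [Finset.mem_coe, Col, Finset.mem_filter]
    refine ⟨Finset.mem_univ _, fun e he => ?_⟩
    have h1 : c e.1 = c e.2 := hc e (Finset.mem_insert_of_mem he)
    have h2 : Conn L u e.1 ↔ Conn L u e.2 := by
      have h3 : Conn L e.1 e.2 := Relation.EqvGen.rel _ _ he
      constructor
      · intro h4
        exact Relation.EqvGen.trans _ _ _ h4 h3
      · intro h4
        exact Relation.EqvGen.trans _ _ _ h4 (Relation.EqvGen.symm _ _ h3)
    simp only [h1, h2]
  · rintro ⟨c, a⟩ hp ⟨c', a'⟩ hp' heq
    rw [Finset.mem_coe, Finset.mem_product] at hp hp'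
    have hc := (Finset.mem_filter.1 hp.1).2 (u, v) (Finset.mem_insert_self _ _)
    have hc' := (Finset.mem_filter.1 hp'.1).2 (u, v) (Finset.mem_insert_self _ _)
    have hu := congrFun heq u
    have hv := congrFun heq v
    simp only at hu hv hc hc'
    have huu : Conn L u u := Relation.EqvGen.refl u
    rw [if_pos huu, if_pos huu] at hu
    rw [if_neg h, if_neg h, add_zero, add_zero] at hv
    have ha : a = a' := by
      rw [hc, hc', hv] at hu
      exact add_left_cancel hu
    subst ha
    have hcc : c = c' := by
      funext w
      have hw := congrFun heq w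
      simp only at hw
      exact add_right_cancel hw
    rw [hcc]

theorem Trv_insert {k q : ℕ} {W : Finset (Fin k × Fin q)} {w : Fin k × Fin q} (hw : w ∉ W) :
    (Trv (insert w W)).card * q ≤ (Trv W).card := by
  classical
  by_cases h : ∃ u ∈ W, u.1 = w.1
  · obtain ⟨u, hu, huw⟩ := h
    have h1 : Trv (insert w W) = ∅ := by
      rw [Finset.eq_empty_iff_forall_notMem]
      intro g hg
      have h2 := (Finset.mem_filter.1 hg).2
      have h3 := h2 u (Finset.mem_insert_of_mem hu)
      have h4 := h2 w (Finset.mem_insert_self _ _)
      apply hw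
      have h5 : u = w := Prod.ext huw (by rw [← h3, ← h4, huw])
      rwa [← h5]
    rw [h1, Finset.card_empty, zero_mul]
    exact Nat.zero_le _
  · push Not at h
    have hq : (Trv (insert w W)).card * q =
        (Trv (insert w W) ×ˢ (Finset.univ : Finset (Fin q))).card := by
      rw [Finset.card_product, Finset.card_univ, Fintype.card_fin]
    rw [hq]
    refine Finset.card_le_card_of_injOn
      (fun p : (Fin k → Fin q) × Fin q => Function.update p.1 w.1 p.2) ?_ ?_
    · rintro ⟨g, b⟩ hp
      rw [Finset.mem_coe, Finset.mem_product] at hp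
      have hg := (Finset.mem_filter.1 hp.1).2
      rw [Finset.mem_coe, Trv, Finset.mem_filter]
      refine ⟨Finset.mem_univ _, fun u hu => ?_⟩
      change Function.update g w.1 b u.1 = u.2
      rw [Function.update_of_ne (h u hu)]
      exact hg u (Finset.mem_insert_of_mem hu)
    · rintro ⟨g, b⟩ hp ⟨g', b'⟩ hp' heq
      rw [Finset.mem_coe, Finset.mem_product] at hp hp'
      have hg := (Finset.mem_filter.1 hp.1).2 w (Finset.mem_insert_self _ _)
      have hg' := (Finset.mem_filter.1 hp'.1).2 w (Finset.mem_insert_self _ _)
      simp only at heq hg hg'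
      have hb : b = b' := by
        have h1 := congrFun heq w.1
        rwa [Function.update_self, Function.update_self] at h1
      have hgg : g = g' := by
        funext i
        by_cases hi : i = w.1
        · rw [hi, hg, hg']
        · have h1 := congrFun heq i
          rwa [Function.update_of_ne hi, Function.update_of_ne hi] at h1
      rw [hb, hgg]

end Pool.Agent.Clq
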