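import Mathlib
import Pool.Agent.Clq.Defs

/-!
# Points and lines

PACKAGE. Prove the lemmas (helper lemmas allowed, keep the statements).

PROOFS. `OnL_lin_left`, `OnL_lin_right`, `lin_unique`: field arithmetic (`field_simp`; for `lin_unique`
subtract the two equations). `lin_off`: if the lines through `(v, y)` and the points `(u, x)`,
`(u', x')` of `l` were equal, this line would contain `(u, x)` and `(u', x')`, so it would be `l`
(`lin_unique`, `c u ≠ c u'`), and `(v, y)` would be on `l`. `card_lines`: let `R` be such that every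
line contains less than `R` of the points `(i, (w i).1)`, `(w i).2`. Map every pair `(i, j)`, `i ≠ j`, to
the line through the two points; this line is in `Lw` for `i < j` by definition, and for `i > j` by
symmetry (`lin_symm`). The pairs which are mapped to a line `l` are pairs of indices whose points
are on `l`, so they are at most `R * R`. So `k * (k - 1) ≤ Lw.card * (R * R)`
(`Finset.card_le_mul_card_image`, `Finset.offDiag_card`).
-/

set_option autoImplicit false

namespace Pool.Agent.Clq

variable {V F : Type} [Field F] {c : V → F}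

theorem OnL_lin_left {u v : V} (x y : F) : OnL c (lin c u v x y) u x := by
  unfold OnL lin
  ring

theorem OnL_lin_right {u v : V} (h : c u ≠ c v) (x y : F) : OnL c (lin c u v x y) v y := by
  unfold OnL lin
  have h1 : c v - c u ≠ 0 := sub_ne_zero.mpr (Ne.symm h)
  show y = x - c u * ((y - x) / (c v - c u)) + c v * ((y - x) / (c v - c u))
  have h2 : (c v - c u) * ((y - x) / (c v - c u)) = y - x := mul_div_cancel₀ _ h1
  linear_combination -h2

theorem lin_unique {u v : V} (h : c u ≠ c v) {x y : F} {l : F × F} (h1 : OnL c l u x)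
    (h2 : OnL c l v y) : l = lin c u v x y := by
  unfold OnL at h1 h2
  have h0 : c v - c u ≠ 0 := sub_ne_zero.mpr (Ne.symm h)
  have h3 : l.2 = (y - x) / (c v - c u) := by
    rw [eq_div_iff h0]
    linear_combination h1 - h2
  refine Prod.ext ?_ h3
  show l.1 = x - c u * ((y - x) / (c v - c u))
  rw [← h3]
  linear_combination -h1

theorem lin_symm {u v : V} (h : c u ≠ c v) (x y : F) : lin c u v x y = lin c v u y x :=
  lin_unique (Ne.symm h) (OnL_lin_right h x y) (OnL_lin_left x y)

theorem lin_off {u u' v : V} (h : c u ≠ c u') (hu : c u ≠ c v) (hu' : c u' ≠ c v) {x x' y : F}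
    {l : F × F} (h1 : OnL c l u x) (h2 : OnL c l u' x') (h3 : ¬ OnL c l v y) :
    lin c u v x y ≠ lin c u' v x' y := by
  intro heq
  apply h3
  have h4 : OnL c (lin c u v x y) u x := OnL_lin_left x y
  have h5 : OnL c (lin c u v x y) u' x' := by
    rw [heq]
    exact OnL_lin_left x' y
  have h6 : lin c u v x y = lin c u u' x x' := lin_unique h h4 h5
  have h7 : l = lin c u u' x x' := lin_unique h h1 h2
  rw [h7, ← h6]
  exact OnL_lin_right hu x y

theorem card_lines {k q : ℕ} [DecidableEq F] {c : Fin k × Fin q → F} (hc : Function.Injective c)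
    (w : Fin k → Fin q × F) (R : ℕ)
    (hR : ∀ l : F × F, ∀ I : Finset (Fin k), (∀ i ∈ I, OnL c l (i, (w i).1) (w i).2) → I.card ≤ R)
    (Lw : Finset (F × F))
    (hL : ∀ i j : Fin k, i < j → lin c (i, (w i).1) (j, (w j).1) (w i).2 (w j).2 ∈ Lw) :
    k * (k - 1) ≤ Lw.card * (R * R) := by
  classical
  have hne : ∀ i j : Fin k, i ≠ j → c (i, (w i).1) ≠ c (j, (w j).1) := by
    intro i j hij h
    exact hij (congrArg Prod.fst (hc h))
  let φ : Fin k × Fin k → F × F := fun p =>
    lin c (p.1, (w p.1).1) (p.2, (w p.2).1) (w p.1).2 (w p.2).2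
  have hφ : ∀ p ∈ (Finset.univ : Finset (Fin k)).offDiag, φ p ∈ Lw := by
    intro p hp
    rw [Finset.mem_offDiag] at hp
    rcases lt_or_gt_of_ne hp.2.2 with h | h
    · exact hL p.1 p.2 h
    · have h1 := hL p.2 p.1 h
      rw [← lin_symm (hne p.1 p.2 hp.2.2)] at h1
      exact h1
  have hfib : ∀ l ∈ Lw, (((Finset.univ : Finset (Fin k)).offDiag).filter fun p => φ p = l).card ≤
      R * R := by
    intro l _
    set I : Finset (Fin k) := Finset.univ.filter fun i => OnL c l (i, (w i).1) (w i).2 with hI
    have hIR : I.card ≤ R := hR l I (fun i hi => by simpa [hI] using hi)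
    have hsub : (((Finset.univ : Finset (Fin k)).offDiag).filter fun p => φ p = l) ⊆ I ×ˢ I := by
      intro p hp
      rw [Finset.mem_filter, Finset.mem_offDiag] at hp
      obtain ⟨⟨_, _, h1⟩, h2⟩ := hp
      rw [Finset.mem_product]
      constructor
      · rw [hI, Finset.mem_filter]
        refine ⟨Finset.mem_univ _, ?_⟩
        rw [← h2]
        exact OnL_lin_left _ _
      · rw [hI, Finset.mem_filter]
        refine ⟨Finset.mem_univ _, ?_⟩
        rw [← h2]
        exact OnL_lin_right (hne p.1 p.2 h1) _ _
    calc _ ≤ (I ×ˢ I).card := Finset.card_le_card hsub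
      _ = I.card * I.card := Finset.card_product _ _
      _ ≤ R * R := Nat.mul_le_mul hIR hIR
  have h1 : ((Finset.univ : Finset (Fin k)).offDiag).card ≤ (R * R) * Lw.card :=
    Finset.card_le_mul_card_image_of_maps_to hφ (R * R) hfib
  rw [Finset.offDiag_card, Finset.card_univ, Fintype.card_fin] at h1
  calc k * (k - 1) = k * k - k := by rw [Nat.mul_sub, Nat.mul_one]
    _ ≤ (R * R) * Lw.card := h1
    _ = Lw.card * (R * R) := Nat.mul_comm _ _

end Pool.Agent.Clq
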