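import Mathlib
import Pool.Agent.Clq.Lines
import Pool.Agent.FewNeg.Elim

/-!
# Many edge-disjoint blocks in the clique function

PACKAGE. Prove `embed` (helper lemmas allowed, keep the statement; use the lemmas of `Lines.lean` as
black boxes; it may be convenient to split the file into several lemmas).

PROOF. Let `V = Fin k × Fin q`. As `k * q * p + (K - k) ≤ n` there is a labelling
`lab : Fin n → Option (Option (V × ZMod p))` such that every `some (some w)` is the label of exactly one
vertex (`pt w`), and the label `some none` (universal vertices) occurs exactly `K - k` times (for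
instance from an equivalence of `V × ZMod p` with `Fin (k * q * p)`; the remaining vertices have the
label `none`: isolated vertices).
For `y : (ZMod p × ZMod p) × (V × V) → Bool` consider the following graph: isolated vertices have no
edges; universal vertices are joined with all vertices which are not isolated; `pt (u, x)` and
`pt (v, x')` with `u.1 < v.1` are joined iff `l = lin c u v x x' ∈ B` and `y (l, (u, v)) = true`; for
`u.1 = v.1` they are not joined. Here `B` is `Ls` without the lines `l` such that some edge in `S` is of
the form `{pt (u, x), pt (v, x')}` with `u.1 < v.1` and `l = lin c u v x x'`; `Ls.card ≤ B.card + S.card`.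
So let `σ e = inr false`, `inr true` or `inl (l, (u, v))`, according to the labels of the ends of `e` (the
ends may have to be exchanged to get `u.1 < v.1`) and `l ∈ B`. For `e ∈ S` `σ e` is a constant.
Let `x_y e = Sum.elim y id (σ e)`.
(1) If `orC B (pclF k q) y = true`: let `l ∈ B` and `g` be such that `y (l, ((i, g i), (j, g j))) = true`
for `i < j`. The universal vertices and the `pt ((i, g i), l.1 + c (i, g i) * l.2)` are a clique with
`K - k + k = K` elements: the line through two of these points is `l` (`lin_unique`; `c` is injective).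
(2) If `cliqueF n K x_y = true`, let `C` be a clique with `K ≥ k ≥ 2` vertices. It contains no
isolated vertex (it has another vertex). At most `K - k` of its vertices are universal, so at least
`k` of them are of the form `pt (u, x)`. Two of these have different `u.1` (they are joined). As there
are only `k` values of `u.1 : Fin k`, for each `i : Fin k` there is exactly one, say
`pt ((i, (w i).1), (w i).2)` (`u ↦ u.1` is injective on a set with at least `k` elements, so surjective).
For `i < j` the line through the points with the numbers `i`, `j` is in `B ⊆ Ls` and `y` is `true` at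
this line and the pair. `NoMix c Ls` gives a line `l` which contains all the points, so it is the line
through any two of them (`lin_unique`), it is in `B` as `2 ≤ k`, and `g i = (w i).1` shows that
`pclF k q (fun a => y (l, a)) = true`.
-/

set_option autoImplicit false

namespace Pool.Agent.Clq

open Pool.Agent.FewNeg

section aux

variable {k q m : ℕ} {F : Type} [Field F] [DecidableEq F]

private abbrev PZ (k q m : ℕ) (F : Type) : Type := ((Fin k × Fin q) × F) ⊕ Fin m

private def eLn (c : Fin k × Fin q → F) :
    Option (PZ k q m F) → Option (PZ k q m F) → F × F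
  | some (Sum.inl w), some (Sum.inl w') =>
    if w.1.1 < w'.1.1 then lin c w.1 w'.1 w.2 w'.2 else lin c w'.1 w.1 w'.2 w.2
  | _, _ => (0, 0)

private def eSt (c : Fin k × Fin q → F) (B : Finset (F × F)) :
    Option (PZ k q m F) → Option (PZ k q m F) →
      ((F × F) × ((Fin k × Fin q) × (Fin k × Fin q))) ⊕ Bool
  | some (Sum.inl w), some (Sum.inl w') =>
    if w.1.1 < w'.1.1 then
      (if lin c w.1 w'.1 w.2 w'.2 ∈ B then Sum.inl (lin c w.1 w'.1 w.2 w'.2, (w.1, w'.1))
        else Sum.inr false)
    else if w'.1.1 < w.1.1 then
      (if lin c w'.1 w.1 w'.2 w.2 ∈ B then Sum.inl (lin c w'.1 w.1 w'.2 w.2, (w'.1, w.1))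
        else Sum.inr false)
    else Sum.inr false
  | some (Sum.inl _), some (Sum.inr _) => Sum.inr true
  | some (Sum.inr _), some _ => Sum.inr true
  | some _, none => Sum.inr false
  | none, _ => Sum.inr false

private theorem eSt_symm (c : Fin k × Fin q → F) (B : Finset (F × F))
    (a b : Option (PZ k q m F)) : eSt c B a b = eSt c B b a := by
  rcases a with _ | ⟨w | i⟩ <;> rcases b with _ | ⟨w' | i'⟩ <;> try rfl
  simp only [eSt]
  by_cases h1 : w.1.1 < w'.1.1
  · have h2 : ¬ w'.1.1 < w.1.1 := not_lt.mpr h1.le
    simp only [h1, h2, if_true, if_false]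
  · simp only [h1, if_false]

private theorem eSt_const (c : Fin k × Fin q → F) (B : Finset (F × F))
    (a b : Option (PZ k q m F)) (h : eLn c a b ∉ B) : ∃ r, eSt c B a b = Sum.inr r := by
  rcases a with _ | ⟨w | i⟩ <;> rcases b with _ | ⟨w' | i'⟩ <;>
    try exact ⟨_, rfl⟩
  simp only [eLn] at h
  simp only [eSt]
  by_cases h1 : w.1.1 < w'.1.1
  · simp only [h1, if_true] at h ⊢
    exact ⟨false, by rw [if_neg h]⟩
  · simp only [h1, if_false] at h ⊢
    refine ⟨false, ?_⟩
    rw [if_neg h, ite_self]

private theorem eSt_none (c : Fin k × Fin q → F) (B : Finset (F × F))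
    (y : (F × F) × ((Fin k × Fin q) × (Fin k × Fin q)) → Bool)
    (a b : Option (PZ k q m F)) (h : Sum.elim y id (eSt c B a b) = true) : a ≠ none := by
  rintro rfl
  rcases b with _ | b <;> simp [eSt] at h

private theorem eSt_pt (c : Fin k × Fin q → F) (B : Finset (F × F))
    (y : (F × F) × ((Fin k × Fin q) × (Fin k × Fin q)) → Bool)
    (w w' : (Fin k × Fin q) × F) (hw : w.1.1 < w'.1.1)
    (h : Sum.elim y id (eSt (m := m) c B (some (Sum.inl w)) (some (Sum.inl w'))) = true) :
    lin c w.1 w'.1 w.2 w'.2 ∈ B ∧ y (lin c w.1 w'.1 w.2 w'.2, (w.1, w'.1)) = true := by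
  simp only [eSt, hw, if_true] at h
  by_cases h1 : lin c w.1 w'.1 w.2 w'.2 ∈ B
  · rw [if_pos h1] at h
    exact ⟨h1, h⟩
  · rw [if_neg h1] at h
    simp at h

private theorem eSt_ne (c : Fin k × Fin q → F) (B : Finset (F × F))
    (y : (F × F) × ((Fin k × Fin q) × (Fin k × Fin q)) → Bool)
    (w w' : (Fin k × Fin q) × F)
    (h : Sum.elim y id (eSt (m := m) c B (some (Sum.inl w)) (some (Sum.inl w'))) = true) :
    w.1.1 ≠ w'.1.1 := by
  intro hw
  simp [eSt, hw] at h

private theorem eSt_line (c : Fin k × Fin q → F) (hc : Function.Injective c) (B : Finset (F × F))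
    (y : (F × F) × ((Fin k × Fin q) × (Fin k × Fin q)) → Bool) (l : F × F) (hl : l ∈ B)
    (g : Fin k → Fin q) (hg : ∀ i j : Fin k, i < j → y (l, ((i, g i), (j, g j))) = true)
    (i j : Fin k) (hij : i ≠ j) :
    Sum.elim y id (eSt (m := m) c B (some (Sum.inl ((i, g i), l.1 + c (i, g i) * l.2)))
      (some (Sum.inl ((j, g j), l.1 + c (j, g j) * l.2)))) = true := by
  have key : ∀ i j : Fin k, i < j → Sum.elim y id (eSt (m := m) c B
      (some (Sum.inl ((i, g i), l.1 + c (i, g i) * l.2)))
      (some (Sum.inl ((j, g j), l.1 + c (j, g j) * l.2)))) = true := by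
    intro i j hij
    have hcc : c (i, g i) ≠ c (j, g j) := by
      intro h
      have := hc h
      rw [Prod.mk.injEq] at this
      exact absurd this.1 hij.ne
    have he : lin c (i, g i) (j, g j) (l.1 + c (i, g i) * l.2) (l.1 + c (j, g j) * l.2) = l :=
      (lin_unique hcc (l := l) rfl rfl).symm
    simp only [eSt, hij, if_true, he, hl]
    exact hg i j hij
  rcases lt_or_gt_of_ne hij with h | h
  · exact key i j h
  · rw [eSt_symm]
    exact key j i h

end aux

theorem embed {n K k q p : ℕ} [Fact p.Prime] (hk : 2 ≤ k) (hkK : k ≤ K)
    (hn : k * q * p + (K - k) ≤ n) (c : Fin k × Fin q → ZMod p) (hc : Function.Injective c)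
    (S : Finset (Edge n)) (Ls : Finset (ZMod p × ZMod p)) (hLs : NoMix c Ls) :
    ∃ (B : Finset (ZMod p × ZMod p))
      (σ : Edge n → ((ZMod p × ZMod p) × ((Fin k × Fin q) × (Fin k × Fin q))) ⊕ Bool),
      Ls.card ≤ B.card + S.card ∧ (∀ e ∈ S, ∃ b, σ e = Sum.inr b) ∧
      ∀ y, cliqueF n K (fun e => Sum.elim y id (σ e)) = orC B (pclF k q) y := by
  classical
  set m := K - k with hm
  have hcard : Fintype.card (PZ k q m (ZMod p)) ≤ Fintype.card (Fin n) := by
    simp only [Fintype.card_sum, Fintype.card_prod, Fintype.card_fin, ZMod.card]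
    exact hn
  obtain ⟨ι⟩ := Function.Embedding.nonempty_of_card_le hcard
  set lab : Fin n → Option (PZ k q m (ZMod p)) := Function.partialInv ι with hlab
  have hlab' : ∀ z v, lab v = some z ↔ ι z = v := by
    intro z v
    exact Function.partialInv_of_injective ι.injective z v
  have hlabι : ∀ z, lab (ι z) = some z := fun z => (hlab' z _).mpr rfl
  set B : Finset (ZMod p × ZMod p) :=
    Ls \ S.image (fun e => eLn c (lab e.1.1) (lab e.1.2)) with hB
  refine ⟨B, fun e => eSt c B (lab e.1.1) (lab e.1.2), ?_, ?_, ?_⟩
  · have h1 := Finset.le_card_sdiff (S.image (fun e => eLn c (lab e.1.1) (lab e.1.2))) Ls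
    have h2 : (S.image (fun e => eLn c (lab e.1.1) (lab e.1.2))).card ≤ S.card :=
      Finset.card_image_le
    rw [← hB] at h1
    omega
  · intro e he
    apply eSt_const
    intro h
    rw [hB, Finset.mem_sdiff] at h
    exact h.2 (Finset.mem_image_of_mem _ he)
  · intro y
    rw [Bool.eq_iff_iff]
    unfold cliqueF orC
    simp only [decide_eq_true_eq]
    constructor
    · -- a clique gives a line
      rintro ⟨C, hC, hadj⟩
      have hadj' : ∀ a ∈ C, ∀ b ∈ C, a ≠ b →
          Sum.elim y id (eSt c B (lab a) (lab b)) = true := by
        intro a ha b hb hab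
        rcases lt_or_gt_of_ne hab with h | h
        · exact hadj ⟨(a, b), h⟩ ha hb
        · rw [eSt_symm]
          exact hadj ⟨(b, a), h⟩ hb ha
      have hsome : ∀ a ∈ C, ∃ z, ι z = a := by
        intro a ha
        have h1 : 1 < C.card := by omega
        obtain ⟨b, hb, hba⟩ := Finset.exists_mem_ne h1 a
        have h2 := eSt_none c B y _ _ (hadj' a ha b hb hba.symm)
        obtain ⟨z, hz⟩ := Option.ne_none_iff_exists'.mp h2
        exact ⟨z, (hlab' z a).mp hz⟩
      set C' : Finset (PZ k q m (ZMod p)) := Finset.univ.filter fun z => ι z ∈ C with hC'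
      have hC'C : C = C'.map ι := by
        ext a
        rw [Finset.mem_map]
        constructor
        · intro ha
          obtain ⟨z, hz⟩ := hsome a ha
          refine ⟨z, ?_, hz⟩
          rw [hC', Finset.mem_filter]
          exact ⟨Finset.mem_univ _, by rw [hz]; exact ha⟩
        · rintro ⟨z, hz, rfl⟩
          rw [hC', Finset.mem_filter] at hz
          exact hz.2
      have hcardC : K ≤ C'.card := by
        have := hC
        rw [hC'C, Finset.card_map] at this
        exact this
      set D := C'.toLeft with hD
      have hDk : k ≤ D.card := by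
        have h1 := Finset.card_toLeft_add_card_toRight (u := C')
        have h2 : C'.toRight.card ≤ m := by
          have := Finset.card_le_univ C'.toRight
          rwa [Fintype.card_fin] at this
        rw [← hD] at h1
        omega
      have hDadj : ∀ w ∈ D, ∀ w' ∈ D, w ≠ w' →
          Sum.elim y id (eSt (m := m) c B (some (Sum.inl w)) (some (Sum.inl w'))) = true := by
        intro w hw w' hw' hne
        rw [hD, Finset.mem_toLeft, hC', Finset.mem_filter] at hw hw'
        have h1 := hadj' _ hw.2 _ hw'.2 (by
          intro h
          have := ι.injective h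
          exact hne (Sum.inl.inj this))
        rwa [hlabι, hlabι] at h1
      have hinj : Set.InjOn (fun w : (Fin k × Fin q) × ZMod p => w.1.1) (D : Set _) := by
        intro w hw w' hw' h
        by_contra hne
        exact eSt_ne (m := m) c B y w w' (hDadj w hw w' hw' hne) h
      have himg : D.image (fun w : (Fin k × Fin q) × ZMod p => w.1.1) = Finset.univ := by
        apply Finset.eq_univ_of_card
        have h1 := Finset.card_image_of_injOn hinj
        have h2 := Finset.card_le_univ (D.image (fun w : (Fin k × Fin q) × ZMod p => w.1.1))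
        rw [Fintype.card_fin] at h2 ⊢
        omega
      have hex : ∀ i : Fin k, ∃ w ∈ D, w.1.1 = i := by
        intro i
        have : i ∈ D.image (fun w : (Fin k × Fin q) × ZMod p => w.1.1) := by
          rw [himg]
          exact Finset.mem_univ i
        obtain ⟨w, hw, hwi⟩ := Finset.mem_image.mp this
        exact ⟨w, hw, hwi⟩
      choose w hwD hwi using hex
      have hwp : ∀ i, (w i).1 = (i, (w i).1.2) := fun i => Prod.ext (hwi i) rfl
      have hlt : ∀ i j : Fin k, i < j →
          lin c (i, (w i).1.2) (j, (w j).1.2) (w i).2 (w j).2 ∈ B ∧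
            y (lin c (i, (w i).1.2) (j, (w j).1.2) (w i).2 (w j).2,
              ((i, (w i).1.2), (j, (w j).1.2))) = true := by
        intro i j hij
        have hne : w i ≠ w j := by
          intro h
          have h1 := hwi i
          rw [h, hwi j] at h1
          exact absurd h1 hij.ne'
        have h1 := eSt_pt (m := m) c B y (w i) (w j) (by rw [hwi, hwi]; exact hij)
          (hDadj _ (hwD i) _ (hwD j) hne)
        rw [← hwp i, ← hwp j]
        exact h1
      obtain ⟨l, hl⟩ := hLs (fun i => ((w i).1.2, (w i).2)) (fun i j hij => by
        have h1 := (hlt i j hij).1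
        rw [hB, Finset.mem_sdiff] at h1
        exact h1.1)
      have hll : ∀ i j : Fin k, i < j →
          l = lin c (i, (w i).1.2) (j, (w j).1.2) (w i).2 (w j).2 := by
        intro i j hij
        refine lin_unique ?_ (hl i) (hl j)
        intro h
        have := hc h
        rw [Prod.mk.injEq] at this
        exact absurd this.1 hij.ne
      refine ⟨l, ?_, ?_⟩
      · have h1 : (⟨0, by omega⟩ : Fin k) < ⟨1, by omega⟩ := by
          rw [Fin.lt_def]
          exact Nat.zero_lt_one
        rw [hll _ _ h1]
        exact (hlt _ _ h1).1
      · unfold pclF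
        rw [decide_eq_true_eq]
        refine ⟨fun i => (w i).1.2, fun i j hij => ?_⟩
        have h1 := (hlt i j hij).2
        rw [← hll i j hij] at h1
        exact h1
    · -- a line gives a clique
      rintro ⟨l, hlB, hl⟩
      unfold pclF at hl
      rw [decide_eq_true_eq] at hl
      obtain ⟨g, hg⟩ := hl
      set φ : Fin k ⊕ Fin m → PZ k q m (ZMod p) :=
        Sum.map (fun i => ((i, g i), l.1 + c (i, g i) * l.2)) id with hφ
      have hφinj : Function.Injective φ := by
        apply Function.Injective.sumMap _ Function.injective_id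
        intro i j hij
        rw [Prod.mk.injEq, Prod.mk.injEq] at hij
        exact hij.1.1
      refine ⟨(Finset.univ.image φ).map ι, ?_, ?_⟩
      · rw [Finset.card_map, Finset.card_image_of_injective _ hφinj, Finset.card_univ,
          Fintype.card_sum, Fintype.card_fin, Fintype.card_fin]
        omega
      · intro e ha hb
        rw [Finset.mem_map] at ha hb
        obtain ⟨z, hz, hza⟩ := ha
        obtain ⟨z', hz', hzb⟩ := hb
        obtain ⟨t, _, rfl⟩ := Finset.mem_image.mp hz
        obtain ⟨t', _, rfl⟩ := Finset.mem_image.mp hz'
        have hne : t ≠ t' := by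
          intro h
          have h1 := e.2
          rw [← hza, ← hzb, h] at h1
          exact lt_irrefl _ h1
        rw [← hza, ← hzb, hlabι, hlabι]
        rcases t with i | i
        · rcases t' with j | j
          · exact eSt_line c hc B y l hlB g hg i j (fun h => hne (by rw [h]))
          · rfl
        · rfl

end Pool.Agent.Clq
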