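import Mathlib
import Pool.Agent.Clq.Count

/-!
# From DNF to CNF

PACKAGE. Prove `dnf_cnf` (helper lemmas allowed, keep the statement; use the lemmas of `Count.lean` as
black boxes).

PROOF. More generally, for all `j ≤ s + 1` and all `L` with `L.card + j = s + 1` there are `𝒜` and
`EN ⊆ Col L` such that the members of `𝒜` have at most `s` elements,
`EN.card * (card A) ^ j ≤ r ^ (2 * j) * (Col L).card`, `(∃ W ∈ B, WP g W) → ∀ L' ∈ 𝒜, LP g L'` for all
`g`, and for all `c ∈ Col L` `(∀ L' ∈ 𝒜, LN c L') → c ∈ EN ∨ ∃ W ∈ B, WN c W`. Induction on `j`. For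
`j = 0` take `𝒜 = ∅`, `EN = Col L`. Step `j + 1`: (1) If every `W ∈ B` contains `u ≠ v` with
`Conn L u v`, take `𝒜 = {L}`, `EN = ∅`: `L.card ≤ s`; if `WP g W` then `u`, `v` show `LP g L`; for
`c ∈ Col L` `LN c L` is false. (2) Otherwise let `W ∈ B` be such that no two elements are connected. For
every pair `(u, v) ∈ W.offDiag` (at most `r * r` pairs) `(u, v) ∉ L`, so `insert (u, v) L` has one
element more, and the induction gives `𝒜 (u, v)`, `EN (u, v)`; take the unions over the pairs. If
`c ∈ Col L` satisfies all members of the union, then either `WN c W`, or `c u = c v` for some pair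
`(u, v) ∈ W.offDiag`, so `c ∈ Col (insert (u, v) L)` and the induction applies. The count:
`EN.card * K ^ (j + 1) ≤ ∑ (EN (u, v)).card * K ^ j * K ≤ ∑ r ^ (2 j) * (Col (insert (u, v) L)).card * K
≤ r * r * r ^ (2 j) * (Col L).card` (`Col_insert`), `K = card A`. The theorem is the case `L = ∅`,
`j = s + 1`; `Col ∅` has `K ^ card V` elements.
-/

set_option autoImplicit false

namespace Pool.Agent.Clq

open Pool.Agent.FewNeg

private theorem walkN {k q : ℕ} {A : Type} [Fintype A] [DecidableEq A] [AddCommGroup A] (r s : ℕ)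
    (B : Finset (Finset (Fin k × Fin q))) (hB : ∀ W ∈ B, W.card ≤ r) :
    ∀ (j : ℕ) (L : Finset ((Fin k × Fin q) × (Fin k × Fin q))), L.card + j = s + 1 →
    ∃ (𝒜 : Finset (Finset ((Fin k × Fin q) × (Fin k × Fin q)))) (EN : Finset (Fin k × Fin q → A)),
      (∀ L' ∈ 𝒜, L'.card ≤ s) ∧
      EN.card * Fintype.card A ^ j ≤ r ^ (2 * j) * (Col (A := A) L).card ∧
      (∀ g : Fin k → Fin q, (∃ W ∈ B, WP g W) → ∀ L' ∈ 𝒜, LP g L') ∧
      ∀ c ∈ Col (A := A) L, (∀ L' ∈ 𝒜, LN c L') → c ∈ EN ∨ ∃ W ∈ B, WN c W := by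
  intro j
  induction j with
  | zero =>
    intro L _
    refine ⟨∅, Col L, by simp, by simp, by simp, fun c hc _ => Or.inl hc⟩
  | succ j ih =>
    intro L hL
    by_cases h1 : ∀ W ∈ B, ∃ u ∈ W, ∃ v ∈ W, u ≠ v ∧ Conn L u v
    · refine ⟨{L}, ∅, ?_, by simp, ?_, ?_⟩
      · intro L' hL'
        rw [Finset.mem_singleton] at hL'
        subst hL'
        omega
      · rintro g ⟨W, hW, hg⟩ L' hL'
        rw [Finset.mem_singleton] at hL'
        subst hL'
        obtain ⟨u, hu, v, hv, huv, hc⟩ := h1 W hW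
        exact ⟨u, v, huv, hc, hg u hu, hg v hv⟩
      · intro c hc h
        obtain ⟨p, hp, hne⟩ := h L (Finset.mem_singleton_self L)
        rw [Col, Finset.mem_filter] at hc
        exact absurd (hc.2 p hp) hne
    · push Not at h1
      obtain ⟨W, hW, hcon⟩ := h1
      have h2 : ∀ p ∈ W.offDiag, ¬ Conn L p.1 p.2 := by
        intro p hp
        rw [Finset.mem_offDiag] at hp
        exact hcon p.1 hp.1 p.2 hp.2.1 hp.2.2
      have h3 : ∀ p ∈ W.offDiag, (insert p L).card + j = s + 1 := by
        intro p hp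
        have h4 : p ∉ L := fun h4 => h2 p hp (Relation.EqvGen.rel _ _ h4)
        rw [Finset.card_insert_of_notMem h4]
        omega
      have h5 := fun p (hp : p ∈ W.offDiag) => ih (insert p L) (h3 p hp)
      choose! f e hf1 hf2 hf3 hf4 using h5
      refine ⟨W.offDiag.biUnion f, W.offDiag.biUnion e, ?_, ?_, ?_, ?_⟩
      · intro L' hL'
        obtain ⟨p, hp, hL'⟩ := Finset.mem_biUnion.1 hL'
        exact hf1 p hp L' hL'
      · calc (W.offDiag.biUnion e).card * Fintype.card A ^ (j + 1)
            ≤ (∑ p ∈ W.offDiag, (e p).card) * Fintype.card A ^ (j + 1) :=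
              Nat.mul_le_mul_right _ Finset.card_biUnion_le
          _ = ∑ p ∈ W.offDiag, ((e p).card * Fintype.card A ^ j) * Fintype.card A := by
              rw [Finset.sum_mul]
              exact Finset.sum_congr rfl fun p _ => by rw [pow_succ, mul_assoc]
          _ ≤ ∑ p ∈ W.offDiag, r ^ (2 * j) * (Col (A := A) L).card := by
              refine Finset.sum_le_sum fun p hp => ?_
              calc ((e p).card * Fintype.card A ^ j) * Fintype.card A
                  ≤ (r ^ (2 * j) * (Col (A := A) (insert p L)).card) * Fintype.card A :=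
                    Nat.mul_le_mul_right _ (hf2 p hp)
                _ = r ^ (2 * j) * ((Col (A := A) (insert p L)).card * Fintype.card A) :=
                    mul_assoc _ _ _
                _ ≤ r ^ (2 * j) * (Col (A := A) L).card :=
                    Nat.mul_le_mul_left _ (Col_insert (h2 p hp))
          _ = W.offDiag.card * (r ^ (2 * j) * (Col (A := A) L).card) := by
              rw [Finset.sum_const, smul_eq_mul]
          _ ≤ (r * r) * (r ^ (2 * j) * (Col (A := A) L).card) := by
              refine Nat.mul_le_mul_right _ ?_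
              rw [Finset.offDiag_card]
              exact (Nat.sub_le _ _).trans (Nat.mul_le_mul (hB W hW) (hB W hW))
          _ = r ^ (2 * (j + 1)) * (Col (A := A) L).card := by ring
      · intro g hg L' hL'
        obtain ⟨p, hp, hL'⟩ := Finset.mem_biUnion.1 hL'
        exact hf3 p hp g hg L' hL'
      · intro c hc h
        by_cases hWN : WN c W
        · exact Or.inr ⟨W, hW, hWN⟩
        · unfold WN at hWN
          push Not at hWN
          obtain ⟨u, hu, v, hv, huv, hcc⟩ := hWN
          have hp : (u, v) ∈ W.offDiag := Finset.mem_offDiag.2 ⟨hu, hv, huv⟩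
          have hc' : c ∈ Col (A := A) (insert (u, v) L) := by
            rw [Col, Finset.mem_filter] at hc ⊢
            refine ⟨Finset.mem_univ _, fun p hp' => ?_⟩
            rcases Finset.mem_insert.1 hp' with rfl | hp'
            · exact hcc
            · exact hc.2 p hp'
          rcases hf4 (u, v) hp c hc' (fun L' hL' =>
            h L' (Finset.mem_biUnion.2 ⟨(u, v), hp, hL'⟩)) with h6 | h6
          · exact Or.inl (Finset.mem_biUnion.2 ⟨(u, v), hp, h6⟩)
          · exact Or.inr h6

theorem dnf_cnf {k q : ℕ} {A : Type} [Fintype A] [DecidableEq A] [AddCommGroup A] (r s : ℕ)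
    (B : Finset (Finset (Fin k × Fin q))) (hB : ∀ W ∈ B, W.card ≤ r) :
    ∃ (𝒜 : Finset (Finset ((Fin k × Fin q) × (Fin k × Fin q)))) (EN : Finset (Fin k × Fin q → A)),
      (∀ L ∈ 𝒜, L.card ≤ s) ∧
      EN.card * Fintype.card A ^ (s + 1) ≤ r ^ (2 * (s + 1)) * Fintype.card A ^ (k * q) ∧
      (∀ g : Fin k → Fin q, (∃ W ∈ B, WP g W) → ∀ L ∈ 𝒜, LP g L) ∧
      ∀ c : Fin k × Fin q → A, (∀ L ∈ 𝒜, LN c L) → c ∈ EN ∨ ∃ W ∈ B, WN c W := by
  obtain ⟨𝒜, EN, h1, h2, h3, h4⟩ := walkN (A := A) r s B hB (s + 1) ∅ (by simp)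
  refine ⟨𝒜, EN, h1, ?_, h3, fun c hc => h4 c ?_ hc⟩
  · have h5 : (Col (A := A) (∅ : Finset ((Fin k × Fin q) × (Fin k × Fin q)))).card =
        Fintype.card A ^ (k * q) := by
      simp [Col]
    rwa [h5] at h2
  · simp [Col]

end Pool.Agent.Clq
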