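import Mathlib
import Pool.Agent.Clq.Count

/-!
# From CNF to DNF

PACKAGE. Prove `cnf_dnf` (helper lemmas allowed, keep the statement; use the lemmas of `Count.lean` as
black boxes).

PROOF. More generally, for all `j ≤ r + 1` and all `W` with `W.card + j = r + 1` there are `B` and
`EP ⊆ Trv W` such that the members of `B` have at most `r` elements,
`EP.card * q ^ j ≤ (2 * s) ^ j * (Trv W).card`, `(∃ W' ∈ B, WN c W') → ∀ L ∈ 𝒜, LN c L` for all `c`, and
for all `g ∈ Trv W` `(∀ L ∈ 𝒜, LP g L) → g ∈ EP ∨ ∃ W' ∈ B, WP g W'`. Induction on `j`. For `j = 0` take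
`B = ∅`, `EP = Trv W`. Step `j + 1`: (1) If for every `L ∈ 𝒜` there are `u ≠ v` in `W` with
`Conn L u v`, take `B = {W}`, `EP = ∅`: if `WN c W` then `c u ≠ c v`, so (`Col_conn`) `c` is not in
`Col L`, which is `LN c L`; and `g ∈ Trv W` is `WP g W`. (2) Otherwise let `L ∈ 𝒜` be such that no two
different elements of `W` are connected by `L`. If `g ∈ Trv W` satisfies `LP g L` with `u ≠ v`, then one
of `u`, `v`, say `w`, is not in `W`, it is in the set `L.image Prod.fst ∪ L.image Prod.snd` of at most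
`2 * s` elements (`conn_touched`), and `g w.1 = w.2`, so `g ∈ Trv (insert w W)`. So take the unions, over
the `w` in this set but not in `W`, of the `B`, `EP` given by the induction for `insert w W`. The
count: `EP.card * q ^ (j + 1) ≤ ∑ (2 s) ^ j * (Trv (insert w W)).card * q ≤ (2 s) ^ (j + 1) *
(Trv W).card` (`Trv_insert`). The theorem is the case `W = ∅`, `j = r + 1`; `Trv ∅` has `q ^ k` elements.
(The colourings `c` are in `V → A` for a type `A`, no finiteness is needed for them; for `Col_conn` a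
version without finiteness is easily proved directly.)
-/

set_option autoImplicit false

namespace Pool.Agent.Clq

open Pool.Agent.FewNeg

/-- Two connected vertices have the same colour if all edges have two ends of the same colour. -/
private theorem conn_same {V A : Type} {L : Finset (V × V)} {c : V → A}
    (hc : ∀ p ∈ L, c p.1 = c p.2) {u v : V} (h : Conn L u v) : c u = c v := by
  induction h with
  | rel x y hxy => exact hc (x, y) hxy
  | refl x => rfl
  | symm x y _ ih => exact ih.symm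
  | trans x y z _ _ ih1 ih2 => exact ih1.trans ih2

private theorem step {k q : ℕ} (A : Type) (r s : ℕ)
    (𝒜 : Finset (Finset ((Fin k × Fin q) × (Fin k × Fin q)))) (h𝒜 : ∀ L ∈ 𝒜, L.card ≤ s) (j : ℕ) :
    ∀ W : Finset (Fin k × Fin q), W.card + j = r + 1 →
    ∃ (B : Finset (Finset (Fin k × Fin q))) (EP : Finset (Fin k → Fin q)),
      (∀ W' ∈ B, W'.card ≤ r) ∧ EP.card * q ^ j ≤ (2 * s) ^ j * (Trv W).card ∧
      (∀ c : Fin k × Fin q → A, (∃ W' ∈ B, WN c W') → ∀ L ∈ 𝒜, LN c L) ∧
      ∀ g ∈ Trv W, (∀ L ∈ 𝒜, LP g L) → g ∈ EP ∨ ∃ W' ∈ B, WP g W' := by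
  classical
  induction j with
  | zero =>
    intro W _
    refine ⟨∅, Trv W, by simp, by simp, by simp, fun g hg _ => Or.inl hg⟩
  | succ j ih =>
    intro W hW
    by_cases h1 : ∀ L ∈ 𝒜, ∃ u ∈ W, ∃ v ∈ W, u ≠ v ∧ Conn L u v
    · refine ⟨{W}, ∅, ?_, by simp, ?_, ?_⟩
      · intro W' hW'
        rw [Finset.mem_singleton] at hW'
        subst hW'
        omega
      · rintro c ⟨W', hW', hc⟩ L hL
        rw [Finset.mem_singleton] at hW'
        subst hW'
        obtain ⟨u, hu, v, hv, huv, hC⟩ := h1 L hL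
        by_contra h2
        refine hc u hu v hv huv (conn_same (fun p hp => ?_) hC)
        by_contra h3
        exact h2 ⟨p, hp, h3⟩
      · intro g hg _
        refine Or.inr ⟨W, Finset.mem_singleton_self W, ?_⟩
        exact (Finset.mem_filter.1 hg).2
    · push Not at h1
      obtain ⟨L, hL, hLW⟩ := h1
      obtain ⟨S, hS⟩ : ∃ S, S = (L.image Prod.fst ∪ L.image Prod.snd) \ W := ⟨_, rfl⟩
      have hScard : S.card ≤ 2 * s := by
        have h2 : S.card ≤ (L.image Prod.fst ∪ L.image Prod.snd).card := by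
          rw [hS]
          exact Finset.card_le_card Finset.sdiff_subset
        have h3 := Finset.card_union_le (L.image Prod.fst) (L.image Prod.snd)
        have h4 : (L.image Prod.fst).card ≤ L.card := Finset.card_image_le
        have h5 : (L.image Prod.snd).card ≤ L.card := Finset.card_image_le
        have h6 := h𝒜 L hL
        omega
      have hex : ∀ w : Fin k × Fin q, ∃ (B : Finset (Finset (Fin k × Fin q)))
          (EP : Finset (Fin k → Fin q)), w ∉ W →
          (∀ W' ∈ B, W'.card ≤ r) ∧ EP.card * q ^ j ≤ (2 * s) ^ j * (Trv (insert w W)).card ∧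
          (∀ c : Fin k × Fin q → A, (∃ W' ∈ B, WN c W') → ∀ L ∈ 𝒜, LN c L) ∧
          ∀ g ∈ Trv (insert w W), (∀ L ∈ 𝒜, LP g L) → g ∈ EP ∨ ∃ W' ∈ B, WP g W' := by
        intro w
        by_cases hw : w ∈ W
        · exact ⟨∅, ∅, fun h => absurd hw h⟩
        · obtain ⟨B, EP, h2⟩ := ih (insert w W) (by rw [Finset.card_insert_of_notMem hw]; omega)
          exact ⟨B, EP, fun _ => h2⟩
      choose B EP hBE using hex
      have hSW : ∀ w ∈ S, w ∉ W := by
        intro w hw
        rw [hS] at hw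
        exact (Finset.mem_sdiff.1 hw).2
      refine ⟨S.biUnion B, S.biUnion EP, ?_, ?_, ?_, ?_⟩
      · intro W' hW'
        obtain ⟨w, hw, hw'⟩ := Finset.mem_biUnion.1 hW'
        exact (hBE w (hSW w hw)).1 W' hw'
      · have h2 : (S.biUnion EP).card ≤ ∑ w ∈ S, (EP w).card := Finset.card_biUnion_le
        have h3 : ∀ w ∈ S, (EP w).card * q ^ (j + 1) ≤ (2 * s) ^ j * (Trv W).card := by
          intro w hw
          have h4 := (hBE w (hSW w hw)).2.1
          have h5 := Trv_insert (hSW w hw)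
          calc (EP w).card * q ^ (j + 1) = ((EP w).card * q ^ j) * q := by ring
            _ ≤ ((2 * s) ^ j * (Trv (insert w W)).card) * q := Nat.mul_le_mul_right _ h4
            _ = (2 * s) ^ j * ((Trv (insert w W)).card * q) := by ring
            _ ≤ (2 * s) ^ j * (Trv W).card := Nat.mul_le_mul_left _ h5
        calc (S.biUnion EP).card * q ^ (j + 1) ≤ (∑ w ∈ S, (EP w).card) * q ^ (j + 1) :=
              Nat.mul_le_mul_right _ h2
          _ = ∑ w ∈ S, (EP w).card * q ^ (j + 1) := Finset.sum_mul _ _ _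
          _ ≤ ∑ _w ∈ S, (2 * s) ^ j * (Trv W).card := Finset.sum_le_sum h3
          _ = S.card * ((2 * s) ^ j * (Trv W).card) := by rw [Finset.sum_const, smul_eq_mul]
          _ ≤ (2 * s) * ((2 * s) ^ j * (Trv W).card) := Nat.mul_le_mul_right _ hScard
          _ = (2 * s) ^ (j + 1) * (Trv W).card := by ring
      · rintro c ⟨W', hW', hc⟩
        obtain ⟨w, hw, hw'⟩ := Finset.mem_biUnion.1 hW'
        exact (hBE w (hSW w hw)).2.2.1 c ⟨W', hw', hc⟩
      · intro g hg hLP
        obtain ⟨u, v, huv, hC, hgu, hgv⟩ := hLP L hL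
        have hgW := (Finset.mem_filter.1 hg).2
        have key : ∃ w ∈ S, g w.1 = w.2 := by
          obtain ⟨ht1, ht2⟩ := conn_touched hC huv
          by_cases hu : u ∈ W
          · by_cases hv : v ∈ W
            · exact absurd hC (hLW u hu v hv huv)
            · exact ⟨v, by rw [hS]; exact Finset.mem_sdiff.2 ⟨ht2, hv⟩, hgv⟩
          · exact ⟨u, by rw [hS]; exact Finset.mem_sdiff.2 ⟨ht1, hu⟩, hgu⟩
        obtain ⟨w, hw, hgw⟩ := key
        have h2 : g ∈ Trv (insert w W) := by
          refine Finset.mem_filter.2 ⟨Finset.mem_univ _, fun x hx => ?_⟩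
          rcases Finset.mem_insert.1 hx with rfl | hx
          · exact hgw
          · exact hgW x hx
        rcases (hBE w (hSW w hw)).2.2.2 g h2 hLP with h3 | ⟨W', h3, h4⟩
        · exact Or.inl (Finset.mem_biUnion.2 ⟨w, hw, h3⟩)
        · exact Or.inr ⟨W', Finset.mem_biUnion.2 ⟨w, hw, h3⟩, h4⟩

theorem cnf_dnf {k q : ℕ} (A : Type) [Fintype A] [DecidableEq A] (r s : ℕ)
    (𝒜 : Finset (Finset ((Fin k × Fin q) × (Fin k × Fin q)))) (h𝒜 : ∀ L ∈ 𝒜, L.card ≤ s) :
    ∃ (B : Finset (Finset (Fin k × Fin q))) (EP : Finset (Fin k → Fin q)),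
      (∀ W ∈ B, W.card ≤ r) ∧ EP.card * q ^ (r + 1) ≤ (2 * s) ^ (r + 1) * q ^ k ∧
      (∀ c : Fin k × Fin q → A, (∃ W ∈ B, WN c W) → ∀ L ∈ 𝒜, LN c L) ∧
      ∀ g : Fin k → Fin q, (∀ L ∈ 𝒜, LP g L) → g ∈ EP ∨ ∃ W ∈ B, WP g W := by
  obtain ⟨B, EP, h1, h2, h3, h4⟩ := step A r s 𝒜 h𝒜 (r + 1) ∅ (by simp)
  have h5 : (Trv (∅ : Finset (Fin k × Fin q))) = Finset.univ := by
    ext g
    simp [Trv]
  refine ⟨B, EP, h1, ?_, h3, fun g => h4 g (by rw [h5]; exact Finset.mem_univ g)⟩
  rw [h5, Finset.card_univ, Fintype.card_fun, Fintype.card_fin, Fintype.card_fin] at h2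
  exact h2

end Pool.Agent.Clq
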