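import Mathlib
import Pool.Agent.Clq.WalkN
import Pool.Agent.Clq.WalkP

/-!
# The monotone complexity of the clique function of k-partite graphs

PACKAGE. Prove `pcl_lower` and `pcl_size` from `dnf_cnf` and `cnf_dnf` (other packages) and
`conn_touched`. The model is the proof of `criterion` in `Pool/Agent/FewNeg/Crit.lean`.

PROOF of `pcl_lower`. Let `A = ZMod (k - 1)` (or any commutative group with `k - 1` elements). For
`g : Fin k → Fin q` let `xP g (u, v)` be `true` iff `u ≠ v`, `g u.1 = u.2` and `g v.1 = v.2`; for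
`c : Fin k × Fin q → A` let `xN c (u, v)` be `true` iff `c u ≠ c v`. An approximator of `f` with errors
`EP`, `EN` is a pair `(𝒜, B)`, where the members of `𝒜` have at most `s` elements and those of `B` at
most `r`, such that
(upB) `f (xP g) = true → g ∈ EP ∨ ∃ W ∈ B, WP g W`, (upA) `f (xP g) = true → g ∈ EP ∨ ∀ L ∈ 𝒜, LP g L`,
(loB) `(∃ W ∈ B, WN c W) → c ∈ EN ∨ f (xN c) = true`, (loA) `(∀ L ∈ 𝒜, LN c L) → c ∈ EN ∨
f (xN c) = true`. By induction on a program `SLP L t 0`: there are `EP`, `EN` with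
`EP.card * q ^ (r + 1) ≤ t * ((2 * s) ^ (r + 1) * q ^ k)` and
`EN.card * K ^ (s + 1) ≤ t * (r ^ (2 * (s + 1)) * K ^ (k * q))`, `K = k - 1`, such that all functions in
`L` have approximators with the errors `EP`, `EN`. Variable `(u, v)`: if `u ≠ v` take `B = {{u, v}}`,
`𝒜 = {{(u, v)}}`; if `u = v` take `B = ∅`, `𝒜 = {∅}` (`2 ≤ r`, `1 ≤ s`). Constant `true`: `𝒜 = ∅`,
`B = {∅}`; `false`: `𝒜 = {∅}`, `B = ∅`. AND: `𝒜 = 𝒜₁ ∪ 𝒜₂`, and `cnf_dnf` for this `𝒜` gives `B` and the
new errors of `EP`. OR: `B = B₁ ∪ B₂`, and `dnf_cnf` gives `𝒜` and the new errors of `EN`.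
END: `pclF k q (xP g) = true` for all `g`, `pclF k q (xN c) = false` for all `c` (pigeonhole: `k` vertices,
`k - 1` colours). Take the approximator of `pclF k q`. If `𝒜 = ∅` then (loA) all `c` are in `EN`, so
`K ^ (s + 1) ≤ t * r ^ (2 * (s + 1))`. If `L ∈ 𝒜` then by (upA) every `g` is in `EP` or satisfies
`LP g L`, so it contains one of the at most `2 s` vertices touched by `L` (`conn_touched`): at most
`2 * s * q ^ (k - 1) ≤ q ^ k / 2` of the `g` (`4 * s ≤ q`). So `q ^ k ≤ 2 * EP.card`, and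
`q ^ (r + 1) ≤ 2 * t * (2 * s) ^ (r + 1)`.

PROOF of `pcl_size`: `r = s = a`, `q = 8 * a`: `(8 a) ^ (a + 1) = 4 ^ (a + 1) * (2 a) ^ (a + 1)`, and
`(k - 1) ^ (a + 1) ≥ 2 ^ (a + 1) * (a ^ 2) ^ (a + 1)`.
-/

set_option autoImplicit false

namespace Pool.Agent.Clq

open Pool.Agent.FewNeg

section

variable {k q : ℕ} {A : Type} [Fintype A] [DecidableEq A]

/-- The clique of the choice `g`. -/
private def xP (g : Fin k → Fin q) : (Fin k × Fin q) × (Fin k × Fin q) → Bool := fun p =>
  decide (p.1 ≠ p.2 ∧ g p.1.1 = p.1.2 ∧ g p.2.1 = p.2.2)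

/-- The complete multipartite graph of the colouring `c`. -/
private def xN (c : Fin k × Fin q → A) : (Fin k × Fin q) × (Fin k × Fin q) → Bool := fun p =>
  decide (c p.1 ≠ c p.2)

/-- The approximators of `f` with the errors `EP` and `EN`. -/
private structure MAp (r s : ℕ) (EP : Finset (Fin k → Fin q)) (EN : Finset (Fin k × Fin q → A))
    (f : BF ((Fin k × Fin q) × (Fin k × Fin q)))
    (𝒜 : Finset (Finset ((Fin k × Fin q) × (Fin k × Fin q))))
    (B : Finset (Finset (Fin k × Fin q))) : Prop where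
  cA : ∀ L ∈ 𝒜, L.card ≤ s
  cB : ∀ W ∈ B, W.card ≤ r
  upB : ∀ g, f (xP g) = true → g ∈ EP ∨ ∃ W ∈ B, WP g W
  upA : ∀ g, f (xP g) = true → g ∈ EP ∨ ∀ L ∈ 𝒜, LP g L
  loB : ∀ c, (∃ W ∈ B, WN c W) → c ∈ EN ∨ f (xN c) = true
  loA : ∀ c, (∀ L ∈ 𝒜, LN c L) → c ∈ EN ∨ f (xN c) = true

omit [Fintype A] in
private theorem MAp.mono {r s : ℕ} {EP EP' : Finset (Fin k → Fin q)}
    {EN EN' : Finset (Fin k × Fin q → A)} {f : BF ((Fin k × Fin q) × (Fin k × Fin q))}
    {𝒜 : Finset (Finset ((Fin k × Fin q) × (Fin k × Fin q)))}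
    {B : Finset (Finset (Fin k × Fin q))} (h : MAp r s EP EN f 𝒜 B) (hP : EP ⊆ EP')
    (hN : EN ⊆ EN') : MAp r s EP' EN' f 𝒜 B where
  cA := h.cA
  cB := h.cB
  upB := fun g hg => (h.upB g hg).imp_left fun h => hP h
  upA := fun g hg => (h.upA g hg).imp_left fun h => hP h
  loB := fun c hc => (h.loB c hc).imp_left fun h => hN h
  loA := fun c hc => (h.loA c hc).imp_left fun h => hN h

omit [Fintype A] in
private theorem map_var (r s : ℕ) (hr : 2 ≤ r) (hs : 1 ≤ s) (EP : Finset (Fin k → Fin q))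
    (EN : Finset (Fin k × Fin q → A)) (i : (Fin k × Fin q) × (Fin k × Fin q)) :
    ∃ 𝒜 B, MAp r s EP EN (fun x => x i) 𝒜 B := by
  obtain ⟨u, v⟩ := i
  by_cases huv : u = v
  · subst huv
    refine ⟨{∅}, ∅, ?_, ?_, ?_, ?_, ?_, ?_⟩
    · intro L hL
      rw [Finset.mem_singleton.1 hL]
      simp
    · intro W hW
      exact absurd hW (Finset.notMem_empty _)
    · intro g hg
      exact absurd rfl (of_decide_eq_true hg).1
    · intro g hg
      exact absurd rfl (of_decide_eq_true hg).1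
    · rintro c ⟨W, hW, _⟩
      exact absurd hW (Finset.notMem_empty _)
    · intro c hc
      obtain ⟨p, hp, _⟩ := hc ∅ (Finset.mem_singleton_self _)
      exact absurd hp (Finset.notMem_empty _)
  · refine ⟨{{(u, v)}}, {{u, v}}, ?_, ?_, ?_, ?_, ?_, ?_⟩
    · intro L hL
      rw [Finset.mem_singleton.1 hL, Finset.card_singleton]
      exact hs
    · intro W hW
      rw [Finset.mem_singleton.1 hW]
      exact Finset.card_le_two.trans hr
    · intro g hg
      have h := of_decide_eq_true hg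
      refine Or.inr ⟨{u, v}, Finset.mem_singleton_self _, ?_⟩
      intro w hw
      rcases Finset.mem_insert.1 hw with rfl | hw
      · exact h.2.1
      · rw [Finset.mem_singleton.1 hw]
        exact h.2.2
    · intro g hg
      have h := of_decide_eq_true hg
      refine Or.inr fun L hL => ?_
      rw [Finset.mem_singleton.1 hL]
      exact ⟨u, v, huv, Relation.EqvGen.rel _ _ (Finset.mem_singleton_self _), h.2.1, h.2.2⟩
    · rintro c ⟨W, hW, hc⟩
      rw [Finset.mem_singleton.1 hW] at hc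
      refine Or.inr (decide_eq_true ?_)
      exact hc u (Finset.mem_insert_self _ _) v
        (Finset.mem_insert_of_mem (Finset.mem_singleton_self _)) huv
    · intro c hc
      obtain ⟨p, hp, hpc⟩ := hc {(u, v)} (Finset.mem_singleton_self _)
      rw [Finset.mem_singleton.1 hp] at hpc
      exact Or.inr (decide_eq_true hpc)

omit [Fintype A] in
private theorem map_const (r s : ℕ) (EP : Finset (Fin k → Fin q))
    (EN : Finset (Fin k × Fin q → A)) (b : Bool) :
    ∃ 𝒜 B, MAp r s EP EN (fun _ => b) 𝒜 B := by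
  cases b with
  | true =>
    refine ⟨∅, {∅}, ?_, ?_, ?_, ?_, fun _ _ => Or.inr rfl, fun _ _ => Or.inr rfl⟩
    · intro L hL
      exact absurd hL (Finset.notMem_empty _)
    · intro W hW
      rw [Finset.mem_singleton.1 hW]
      simp
    · intro g _
      exact Or.inr ⟨∅, Finset.mem_singleton_self _, fun u hu => absurd hu (Finset.notMem_empty _)⟩
    · intro g _
      exact Or.inr fun L hL => absurd hL (Finset.notMem_empty _)
  | false =>
    refine ⟨{∅}, ∅, ?_, ?_, fun g hg => absurd hg (by simp), fun g hg => absurd hg (by simp),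
      ?_, ?_⟩
    · intro L hL
      rw [Finset.mem_singleton.1 hL]
      simp
    · intro W hW
      exact absurd hW (Finset.notMem_empty _)
    · rintro c ⟨W, hW, _⟩
      exact absurd hW (Finset.notMem_empty _)
    · intro c hc
      obtain ⟨p, hp, _⟩ := hc ∅ (Finset.mem_singleton_self _)
      exact absurd hp (Finset.notMem_empty _)

private theorem mono_aux [AddCommGroup A] (r s : ℕ) (hr : 2 ≤ r) (hs : 1 ≤ s)
    {L : List (BF ((Fin k × Fin q) × (Fin k × Fin q)) × ℕ)} {t m : ℕ} (h : SLP L t m) :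
    m = 0 → ∃ (EP : Finset (Fin k → Fin q)) (EN : Finset (Fin k × Fin q → A)),
      EP.card * q ^ (r + 1) ≤ t * ((2 * s) ^ (r + 1) * q ^ k) ∧
      EN.card * Fintype.card A ^ (s + 1) ≤
        t * (r ^ (2 * (s + 1)) * Fintype.card A ^ (k * q)) ∧
      ∀ p ∈ L, ∃ 𝒜 B, MAp r s EP EN p.1 𝒜 B := by
  classical
  induction h with
  | nil =>
    intro _
    exact ⟨∅, ∅, by simp, by simp, by simp⟩
  | @var L t m i _ ih =>
    intro hm
    obtain ⟨EP, EN, hP, hN, hL⟩ := ih hm
    refine ⟨EP, EN, hP, hN, ?_⟩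
    intro p hp
    rcases List.mem_cons.1 hp with rfl | hp
    · exact map_var r s hr hs EP EN i
    · exact hL p hp
  | @const L t m b _ ih =>
    intro hm
    obtain ⟨EP, EN, hP, hN, hL⟩ := ih hm
    refine ⟨EP, EN, hP, hN, ?_⟩
    intro p hp
    rcases List.mem_cons.1 hp with rfl | hp
    · exact map_const r s EP EN b
    · exact hL p hp
  | @and L t m f g d e _ hf hg ih =>
    intro hm
    obtain ⟨EP, EN, hP, hN, hL⟩ := ih hm
    obtain ⟨𝒜₁, B₁, h₁⟩ : ∃ 𝒜 B, MAp r s EP EN f 𝒜 B := hL _ hf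
    obtain ⟨𝒜₂, B₂, h₂⟩ : ∃ 𝒜 B, MAp r s EP EN g 𝒜 B := hL _ hg
    have hA : ∀ L' ∈ 𝒜₁ ∪ 𝒜₂, L'.card ≤ s := by
      intro L' hL'
      rcases Finset.mem_union.1 hL' with h | h
      · exact h₁.cA L' h
      · exact h₂.cA L' h
    obtain ⟨B, EP', hB, hEP', hBA, hAB⟩ := cnf_dnf A r s (𝒜₁ ∪ 𝒜₂) hA
    refine ⟨EP ∪ EP', EN, ?_, ?_, ?_⟩
    · calc (EP ∪ EP').card * q ^ (r + 1) ≤ (EP.card + EP'.card) * q ^ (r + 1) :=
            Nat.mul_le_mul_right _ (Finset.card_union_le _ _)
        _ = EP.card * q ^ (r + 1) + EP'.card * q ^ (r + 1) := by ring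
        _ ≤ t * ((2 * s) ^ (r + 1) * q ^ k) + (2 * s) ^ (r + 1) * q ^ k :=
            Nat.add_le_add hP hEP'
        _ = (t + 1) * ((2 * s) ^ (r + 1) * q ^ k) := by ring
    · exact hN.trans (Nat.mul_le_mul_right _ (Nat.le_succ _))
    · intro p hp
      rcases List.mem_cons.1 hp with rfl | hp
      · have key : ∀ y, (f (xP y) && g (xP y)) = true → y ∈ EP ∨ ∀ L' ∈ 𝒜₁ ∪ 𝒜₂, LP y L' := by
          intro y hy
          rw [Bool.and_eq_true] at hy
          rcases h₁.upA y hy.1 with h | h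
          · exact Or.inl h
          · rcases h₂.upA y hy.2 with h' | h'
            · exact Or.inl h'
            · refine Or.inr fun L' hL' => ?_
              rcases Finset.mem_union.1 hL' with hL' | hL'
              · exact h L' hL'
              · exact h' L' hL'
        have key2 : ∀ c : Fin k × Fin q → A, (∀ L' ∈ 𝒜₁ ∪ 𝒜₂, LN c L') →
            c ∈ EN ∨ (f (xN c) && g (xN c)) = true := by
          intro c hc
          rcases h₁.loA c (fun L' hL' => hc L' (Finset.mem_union_left _ hL')) with h | h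
          · exact Or.inl h
          · rcases h₂.loA c (fun L' hL' => hc L' (Finset.mem_union_right _ hL')) with h' | h'
            · exact Or.inl h'
            · exact Or.inr (by rw [h, h']; rfl)
        refine ⟨𝒜₁ ∪ 𝒜₂, B, hA, hB, ?_, ?_, ?_, key2⟩
        · intro y hy
          rcases key y hy with h | h
          · exact Or.inl (Finset.mem_union_left _ h)
          · rcases hAB y h with h | h
            · exact Or.inl (Finset.mem_union_right _ h)
            · exact Or.inr h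
        · intro y hy
          exact (key y hy).imp_left fun h => Finset.mem_union_left _ h
        · intro c hc
          exact key2 c (hBA c hc)
      · obtain ⟨𝒜, B', h'⟩ := hL p hp
        exact ⟨𝒜, B', h'.mono Finset.subset_union_left subset_rfl⟩
  | @or L t m f g d e _ hf hg ih =>
    intro hm
    obtain ⟨EP, EN, hP, hN, hL⟩ := ih hm
    obtain ⟨𝒜₁, B₁, h₁⟩ : ∃ 𝒜 B, MAp r s EP EN f 𝒜 B := hL _ hf
    obtain ⟨𝒜₂, B₂, h₂⟩ : ∃ 𝒜 B, MAp r s EP EN g 𝒜 B := hL _ hg
    have hB : ∀ W ∈ B₁ ∪ B₂, W.card ≤ r := by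
      intro W hW
      rcases Finset.mem_union.1 hW with h | h
      · exact h₁.cB W h
      · exact h₂.cB W h
    obtain ⟨𝒜, EN', hA, hEN', hBA, hAB⟩ := dnf_cnf (A := A) r s (B₁ ∪ B₂) hB
    refine ⟨EP, EN ∪ EN', ?_, ?_, ?_⟩
    · exact hP.trans (Nat.mul_le_mul_right _ (Nat.le_succ _))
    · calc (EN ∪ EN').card * Fintype.card A ^ (s + 1)
          ≤ (EN.card + EN'.card) * Fintype.card A ^ (s + 1) :=
            Nat.mul_le_mul_right _ (Finset.card_union_le _ _)
        _ = EN.card * Fintype.card A ^ (s + 1) + EN'.card * Fintype.card A ^ (s + 1) := by ring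
        _ ≤ t * (r ^ (2 * (s + 1)) * Fintype.card A ^ (k * q)) +
            r ^ (2 * (s + 1)) * Fintype.card A ^ (k * q) := Nat.add_le_add hN hEN'
        _ = (t + 1) * (r ^ (2 * (s + 1)) * Fintype.card A ^ (k * q)) := by ring
    · intro p hp
      rcases List.mem_cons.1 hp with rfl | hp
      · have key : ∀ y, (f (xP y) || g (xP y)) = true → y ∈ EP ∨ ∃ W ∈ B₁ ∪ B₂, WP y W := by
          intro y hy
          rw [Bool.or_eq_true] at hy
          rcases hy with hy | hy
          · exact (h₁.upB y hy).imp_right fun ⟨W, hW, hy⟩ => ⟨W, Finset.mem_union_left _ hW, hy⟩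
          · exact (h₂.upB y hy).imp_right fun ⟨W, hW, hy⟩ => ⟨W, Finset.mem_union_right _ hW, hy⟩
        have key2 : ∀ c : Fin k × Fin q → A, (∃ W ∈ B₁ ∪ B₂, WN c W) →
            c ∈ EN ∨ (f (xN c) || g (xN c)) = true := by
          rintro c ⟨W, hW, hc⟩
          rcases Finset.mem_union.1 hW with hW | hW
          · exact (h₁.loB c ⟨W, hW, hc⟩).imp_right fun h => by rw [h]; rfl
          · exact (h₂.loB c ⟨W, hW, hc⟩).imp_right fun h => by rw [h, Bool.or_true]
        refine ⟨𝒜, B₁ ∪ B₂, hA, hB, key, ?_, ?_, ?_⟩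
        · intro y hy
          exact (key y hy).imp_right fun h => hBA y h
        · intro c hc
          exact (key2 c hc).imp_left fun h => Finset.mem_union_left _ h
        · intro c hc
          rcases hAB c hc with h | h
          · exact Or.inl (Finset.mem_union_right _ h)
          · exact (key2 c h).imp_left fun h => Finset.mem_union_left _ h
      · obtain ⟨𝒜', B', h'⟩ := hL p hp
        exact ⟨𝒜', B', h'.mono subset_rfl Finset.subset_union_left⟩
  | not _ _ _ =>
    intro hm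
    exact absurd hm (Nat.succ_ne_zero _)

private theorem pcl_xP (g : Fin k → Fin q) : pclF k q (xP g) = true := by
  refine decide_eq_true ⟨g, fun i j hij => decide_eq_true ⟨?_, rfl, rfl⟩⟩
  intro h
  exact hij.ne (congrArg Prod.fst h)

private theorem pcl_xN (hA : Fintype.card A < k) (c : Fin k × Fin q → A) :
    ¬ pclF k q (xN c) = true := by
  intro h
  obtain ⟨g, hg⟩ := of_decide_eq_true h
  obtain ⟨i, j, hij, hc⟩ := Fintype.exists_ne_map_eq_of_card_lt (fun i : Fin k => c (i, g i))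
    (by rwa [Fintype.card_fin])
  rcases lt_or_gt_of_ne hij with h1 | h1
  · exact (of_decide_eq_true (hg i j h1)) hc
  · exact (of_decide_eq_true (hg j i h1)) hc.symm

private theorem lp_count (s : ℕ) (hq : 4 * s ≤ q) (hq0 : 0 < q) (EP : Finset (Fin k → Fin q))
    (L : Finset ((Fin k × Fin q) × (Fin k × Fin q))) (hL : L.card ≤ s)
    (h : ∀ g, g ∈ EP ∨ LP g L) : q ^ k ≤ 2 * EP.card := by
  classical
  set T : Finset (Fin k × Fin q) := L.image Prod.fst ∪ L.image Prod.snd with hT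
  have hTc : T.card ≤ 2 * s := by
    calc T.card ≤ (L.image Prod.fst).card + (L.image Prod.snd).card := Finset.card_union_le _ _
      _ ≤ L.card + L.card := Nat.add_le_add Finset.card_image_le Finset.card_image_le
      _ ≤ 2 * s := by omega
  have h1 : (Finset.univ : Finset (Fin k → Fin q)) ⊆ EP ∪ T.biUnion fun w => Trv {w} := by
    intro g _
    rcases h g with hg | ⟨u, v, huv, hc, hu, _⟩
    · exact Finset.mem_union_left _ hg
    · refine Finset.mem_union_right _ (Finset.mem_biUnion.2 ⟨u, (conn_touched hc huv).1, ?_⟩)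
      unfold Trv
      rw [Finset.mem_filter]
      refine ⟨Finset.mem_univ _, fun w hw => ?_⟩
      rw [Finset.mem_singleton.1 hw]
      exact hu
  have h2 : ∀ w : Fin k × Fin q, (Trv {w}).card * q ≤ q ^ k := by
    intro w
    have h3 := Trv_insert (k := k) (q := q) (W := ∅) (w := w) (Finset.notMem_empty w)
    have h4 : (Trv (∅ : Finset (Fin k × Fin q))).card ≤ q ^ k := by
      calc (Trv (∅ : Finset (Fin k × Fin q))).card ≤ Fintype.card (Fin k → Fin q) :=
            Finset.card_le_univ _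
        _ = q ^ k := by simp
    exact h3.trans h4
  have h3 : q ^ k ≤ EP.card + ∑ w ∈ T, (Trv {w}).card := by
    calc q ^ k = (Finset.univ : Finset (Fin k → Fin q)).card := by simp
      _ ≤ (EP ∪ T.biUnion fun w => Trv {w}).card := Finset.card_le_card h1
      _ ≤ EP.card + (T.biUnion fun w => Trv {w}).card := Finset.card_union_le _ _
      _ ≤ EP.card + ∑ w ∈ T, (Trv {w}).card := Nat.add_le_add_left Finset.card_biUnion_le _
  have h4 : (∑ w ∈ T, (Trv {w}).card) * q ≤ 2 * s * q ^ k := by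
    rw [Finset.sum_mul]
    calc ∑ w ∈ T, (Trv {w}).card * q ≤ ∑ _w ∈ T, q ^ k := Finset.sum_le_sum fun w _ => h2 w
      _ = T.card * q ^ k := by rw [Finset.sum_const, smul_eq_mul]
      _ ≤ 2 * s * q ^ k := Nat.mul_le_mul_right _ hTc
  have h5 : q ^ k * q ≤ EP.card * q + 2 * s * q ^ k := by
    calc q ^ k * q ≤ (EP.card + ∑ w ∈ T, (Trv {w}).card) * q := Nat.mul_le_mul_right _ h3
      _ = EP.card * q + (∑ w ∈ T, (Trv {w}).card) * q := by ring
      _ ≤ EP.card * q + 2 * s * q ^ k := Nat.add_le_add_left h4 _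
  have h6 : 4 * s * q ^ k ≤ q * q ^ k := Nat.mul_le_mul_right _ hq
  have h7 : q ^ k * q ≤ 2 * EP.card * q := by nlinarith
  exact Nat.le_of_mul_le_mul_right h7 hq0

end

theorem pcl_lower (k q r s t d : ℕ) (hk : 2 ≤ k) (hr : 2 ≤ r) (hs : 1 ≤ s) (hq : 4 * s ≤ q)
    (h : Computes t d 0 (pclF k q)) :
    q ^ (r + 1) ≤ 2 * t * (2 * s) ^ (r + 1) ∨ (k - 1) ^ (s + 1) ≤ t * r ^ (2 * (s + 1)) := by
  classical
  have : NeZero (k - 1) := ⟨by omega⟩
  obtain ⟨L, t', d', m', hL, hf, ht, _, hm⟩ := h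
  obtain ⟨EP, EN, hP, hN, hap⟩ := mono_aux (k := k) (q := q) (A := ZMod (k - 1)) r s hr hs hL
    (by omega)
  obtain ⟨𝒜, B, hAB⟩ := hap _ hf
  rw [ZMod.card] at hN
  have hq0 : 0 < q := by omega
  rcases 𝒜.eq_empty_or_nonempty with rfl | ⟨L', hL'⟩
  · right
    have h1 : EN = Finset.univ := by
      refine Finset.eq_univ_iff_forall.2 fun c => ?_
      rcases hAB.loA c (fun L' hL' => absurd hL' (Finset.notMem_empty _)) with h | h
      · exact h
      · exact absurd h (pcl_xN (by rw [ZMod.card]; omega) c)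
    have h2 : EN.card = (k - 1) ^ (k * q) := by
      rw [h1, Finset.card_univ, Fintype.card_fun, ZMod.card, Fintype.card_prod, Fintype.card_fin,
        Fintype.card_fin]
    rw [h2] at hN
    have h3 : 0 < (k - 1) ^ (k * q) := Nat.pow_pos (by omega)
    refine Nat.le_of_mul_le_mul_left ?_ h3
    calc (k - 1) ^ (k * q) * (k - 1) ^ (s + 1)
        ≤ t' * (r ^ (2 * (s + 1)) * (k - 1) ^ (k * q)) := hN
      _ ≤ t * (r ^ (2 * (s + 1)) * (k - 1) ^ (k * q)) := Nat.mul_le_mul_right _ ht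
      _ = (k - 1) ^ (k * q) * (t * r ^ (2 * (s + 1))) := by ring
  · left
    have h1 : q ^ k ≤ 2 * EP.card := lp_count s hq hq0 EP L' (hAB.cA L' hL') fun g =>
      (hAB.upA g (pcl_xP g)).imp_right fun h => h L' hL'
    have h3 : 0 < q ^ k := Nat.pow_pos hq0
    refine Nat.le_of_mul_le_mul_left ?_ h3
    calc q ^ k * q ^ (r + 1) ≤ 2 * EP.card * q ^ (r + 1) := Nat.mul_le_mul_right _ h1
      _ = 2 * (EP.card * q ^ (r + 1)) := by ring
      _ ≤ 2 * (t' * ((2 * s) ^ (r + 1) * q ^ k)) := Nat.mul_le_mul_left _ hP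
      _ ≤ 2 * (t * ((2 * s) ^ (r + 1) * q ^ k)) :=
          Nat.mul_le_mul_left _ (Nat.mul_le_mul_right _ ht)
      _ = q ^ k * (2 * t * (2 * s) ^ (r + 1)) := by ring

theorem pcl_size (a k t d : ℕ) (ha : 2 ≤ a) (hk : 2 * a ^ 2 + 1 ≤ k)
    (h : Computes t d 0 (pclF k (8 * a))) : 2 ^ a ≤ t := by
  have hk2 : 2 ≤ k := by nlinarith
  rcases pcl_lower k (8 * a) a a t d hk2 ha (by omega) (by omega) h with h1 | h1
  · have h2 : (8 * a) ^ (a + 1) = 4 ^ (a + 1) * (2 * a) ^ (a + 1) := by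
      rw [← mul_pow]
      congr 1
      ring
    rw [h2] at h1
    have h3 : 0 < (2 * a) ^ (a + 1) := Nat.pow_pos (by omega)
    have h4 : 4 ^ (a + 1) ≤ 2 * t := Nat.le_of_mul_le_mul_right h1 h3
    have h5 : 2 ^ a ≤ 4 ^ a := Nat.pow_le_pow_left (by norm_num) a
    rw [pow_succ] at h4
    omega
  · have h2 : (2 * a ^ 2) ^ (a + 1) ≤ (k - 1) ^ (a + 1) := Nat.pow_le_pow_left (by omega) _
    have h3 : (2 * a ^ 2) ^ (a + 1) = 2 ^ (a + 1) * a ^ (2 * (a + 1)) := by
      rw [mul_pow, ← pow_mul]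
    have h4 : 0 < a ^ (2 * (a + 1)) := Nat.pow_pos (by omega)
    have h5 : 2 ^ (a + 1) ≤ t := by
      refine Nat.le_of_mul_le_mul_right ?_ h4
      rw [← h3]
      exact h2.trans h1
    rw [pow_succ] at h5
    omega

end Pool.Agent.Clq
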