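import Mathlib
import Pool.Agent.Clq.Defs
import Pool.Agent.TAvg.RandLowS
import Pool.Agent.CGame.Circ
import Pool.Agent.TOpt.CircL

/-!
# The lower bound for randomised games, for arbitrary functions

PACKAGE. Prove `rand_lower_gen` and `Computes.decidesE` (helper lemmas allowed, keep the statements).

PROOFS. `rand_lower_gen`: copy the proof of `rand_lower_size` in `Pool/Agent/TAvg/RandLowS.lean`; the
only differences are the function `f` in place of `slice L n`, the type `α` in place of `Fin N`, and
that `σ` is an arbitrary constant on `S` (two inputs `fun p => Sum.elim y id (σ p)` agree on `S`).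
`Computes.decidesE`: as in the proof of `ComputesL.decides` in `Pool/Agent/CGame/Circ.lean` with the
empty set, from `Computes.computesL` (`Pool/Agent/TOpt/CircL.lean`), `LSLP.toX` (with `σ = Sum.inl`),
`SLPX.prune`, `SLPX.exists_game`; the protocol does not depend on the variables in `S`.
-/

set_option autoImplicit false

namespace Pool.Agent.Clq

open Pool.Agent.FewNeg Pool.Agent.FewG Pool.Agent.CGame Pool.Agent.TOpt Pool.Agent.TAvg

/-- The games for monotone circuits are games for a class of monotone functions. -/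
private theorem RandG_guses {ι : Type} {s d : ℕ} {G : Game ι} : ∀ {P : ℕ}, G.Le s d P →
    GUses (fun f => ∃ d, Computes s d 0 f) G P := by
  induction G with
  | out f => exact fun h => ⟨⟨d, h.1⟩, h.2⟩
  | round T q next ih =>
    rintro P ⟨h1, P', h2, h3⟩
    exact ⟨fun i => ⟨d, h1 i⟩, P', h2, fun a => ih a (h3 a)⟩

private theorem RandG_depth {ι : Type} {s : ℕ} (l : List (BF ι))
    (h : ∀ f ∈ l, ∃ d, Computes s d 0 f) : ∃ d, ∀ f ∈ l, Computes s d 0 f := by
  induction l with
  | nil => exact ⟨0, by simp⟩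
  | cons f l ih =>
    obtain ⟨d1, h1⟩ := h f List.mem_cons_self
    obtain ⟨d2, h2⟩ := ih fun g hg => h g (List.mem_cons_of_mem _ hg)
    refine ⟨max d1 d2, fun g hg => ?_⟩
    rcases List.mem_cons.1 hg with rfl | hg
    · exact h1.mono le_rfl (le_max_left _ _) le_rfl
    · exact (h2 g hg).mono le_rfl (le_max_right _ _) le_rfl

theorem rand_lower_gen {ι κ α : Type} [Fintype κ] [DecidableEq κ] [DecidableEq α] {f : BF ι}
    {F : BF κ} (hF0 : F (fun _ => false) = false) {S : Finset ι} {B : Finset α}
    {σ : ι → (α × κ) ⊕ Bool} (hσ : ∀ p ∈ S, ∃ b, σ p = Sum.inr b)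
    (hf : ∀ y : α × κ → Bool, f (fun p => Sum.elim y id (σ p)) = orC B F y)
    {s P e K : ℕ} (he : 1 ≤ e) (hK : 0 < K) (g : Fin K → BF ι) (hg : ∀ k, DecidesE S s P (g k))
    (hgf : ∀ x, (e + 1) * K ≤ 2 * e * (Finset.univ.filter fun k => g k x = f x).card)
    (hB : (P - 1) * (2 * e) + 1 ≤ B.card) :
    ∃ M d : ℕ, M ≤ 64 * e ^ 2 * (Fintype.card κ + 1) ∧
      Computes (M * (P * (s + 1)) + M * (M + 1)) d 0 F := by
  classical
  choose d G h1 h2 h3 using hg
  set x₀ : ι → Bool := fun p => Sum.elim (fun _ : α × κ => false) id (σ p) with hx₀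
  have h𝒜 : ∀ f : BF (α × κ), (∃ d, Computes s d 0 f) → Monotone f :=
    fun f ⟨d, hd⟩ => Computes.monotone' hd
  have hval : ∀ k y, ((G k x₀).sub σ).val y = g k (fun p => Sum.elim y id (σ p)) := by
    intro k y
    rw [Game.sub_val, ← h3]
    congr 1
    refine h1 k _ _ fun i hi => ?_
    obtain ⟨b, hb⟩ := hσ i hi
    rw [hx₀]
    simp only [hb]
    rfl
  obtain ⟨a, z, l, hl, hp, hn⟩ := rand_of_copies h𝒜 hF0 B hK he (fun k => (G k x₀).sub σ)
    (fun k => RandG_guses ((h2 k x₀).sub σ)) (fun y => by
      have := hgf (fun p => Sum.elim y id (σ p))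
      rw [hf] at this
      simpa only [hval] using this) hB
  set T : Fin K → (κ → Bool) → Bool := fun k u => (l k).any fun h => h (upd z a u) with hTdef
  have hT : ∀ k, ∃ d, Computes (P * (s + 1)) d 0 (T k) := by
    intro k
    obtain ⟨D, hD⟩ := RandG_depth (l k) (hl k).2
    have hsub : ∀ {g : BF (α × κ)}, Computes s D 0 g →
        Computes s D 0 (fun y => g (upd z a y)) := by
      intro g hg
      refine hg.subst (fun p => if p.1 = a then Sum.inl p.2 else Sum.inr (z p)) ?_
      intro u
      have : (upd z a u) = fun p => Sum.elim u id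
          ((if p.1 = a then Sum.inl p.2 else Sum.inr (z p)) : κ ⊕ Bool) := by
        funext p
        simp only [upd]
        split_ifs <;> rfl
      rw [this]
    refine ⟨_, (computes_or_list (s := s) (d := D) (F := T k)
      ((l k).map fun g y => g (upd z a y)) ?_ ?_).mono ?_ le_rfl le_rfl⟩
    · intro g hg
      obtain ⟨g', hg', rfl⟩ := List.mem_map.1 hg
      exact hsub (hD g' hg')
    · intro u
      rw [hTdef]
      simp only [List.any_eq_true]
      constructor
      · rintro ⟨g, hg, hu⟩
        exact ⟨_, List.mem_map.2 ⟨g, hg, rfl⟩, hu⟩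
      · rintro ⟨g, hg, hu⟩
        obtain ⟨g', hg', rfl⟩ := List.mem_map.1 hg
        exact ⟨g', hg', hu⟩
    · rw [List.length_map]
      exact Nat.mul_le_mul_right _ (hl k).1
  obtain ⟨M, θ, ρ, hM, hs⟩ := exists_sample (N := Fintype.card κ) hK he T (by
    rw [Fintype.card_fun, Fintype.card_bool])
  obtain ⟨d', hd'⟩ := computes_thr θ (fun j => T (ρ j)) (fun j => hT (ρ j))
  refine ⟨M, d', hM, ?_⟩
  have hF : F = fun u => decide (θ ≤ (Finset.univ.filter fun j => T (ρ j) u = true).card) := by
    funext u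
    rcases hu : F u with _ | _
    · symm
      rw [decide_eq_false_iff_not, not_le]
      exact (hs u).2 (hn u hu)
    · symm
      rw [decide_eq_true_iff]
      exact (hs u).1 (hp u hu)
  rw [hF]
  exact hd'

theorem Computes.decidesE {ι : Type} {s d t : ℕ} {f : BF ι} (h : Computes s d t f)
    (S : Finset ι) : DecidesE S s (2 ^ t) f := by
  classical
  obtain ⟨L, s', N, d', r, h1, h2, h3, h4, h5⟩ := Computes.computesL h (∅ : Finset ι)
  obtain ⟨ns, h6, h7⟩ := h1.toX (κ := ι) (fun i => Sum.inl i) (fun i hi => absurd hi (by simp))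
  obtain ⟨s'', hs'', ns', hns', h8⟩ := SLPX.prune h6 d
  have hmem : (((fun y => f (fun i => Sum.elim y id ((Sum.inl i : ι ⊕ Bool)))) : BF ι), d', r) ∈
      (L.map fun p => ((fun y => p.1 (fun i => Sum.elim y id
        ((Sum.inl i : ι ⊕ Bool))) : BF ι), p.2)).filter fun p => decide (p.2.1 ≤ d) := by
    rw [List.mem_filter]
    exact ⟨List.mem_map.2 ⟨_, h2, rfl⟩, by simpa using h4⟩
  obtain ⟨G, g1, g2⟩ := SLPX.exists_game h8 (D := d) (fun p hp => by
    have := (List.mem_filter.1 hp).2
    simpa using this) hmem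
  refine ⟨d, fun _ => G, fun _ _ _ => rfl, fun _ => ?_, fun x => ?_⟩
  · have hP : levelProd (ns'.map Prod.snd) ≤ 2 ^ t := by
      refine (levelProd_mono (hns'.map Prod.snd)).trans ?_
      rw [h7]
      exact h5
    have hle : ∀ {G : Game ι} {P : ℕ}, G.Le s'' d P → G.Le s d P := by
      intro G
      induction G with
      | out f => exact fun h => ⟨h.1.mono (by omega) le_rfl le_rfl, h.2⟩
      | round T q next ih =>
        rintro P ⟨k1, P', k2, k3⟩
        exact ⟨fun i => (k1 i).mono (by omega) le_rfl le_rfl, P', k2, fun a => ih a (k3 a)⟩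
    exact (hle g1).mono hP
  · rw [g2 x]
    rfl

end Pool.Agent.Clq
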