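import Mathlib
import Pool.Agent.Clq.Lines

/-!
# A random set of lines without spread cliques

PACKAGE. Prove `exists_lines` (helper lemmas allowed, keep the statement; use the lemmas of
`Lines.lean` as black boxes).

PROOF. Let `X = ZMod p × ZMod p` (the lines), `Y = X → Fin M`, `Ls ω = {l | ω l = 0}` for `ω : Y`,
`Y` has `M ^ (p ^ 2)` elements.
(1) For a set `Λ` of lines with at least `T` elements the number of `ω` with `ω l = 0` for all `l ∈ Λ`
is at most `M ^ (p ^ 2)` divided by `M ^ T`: `#{ω | ∀ l ∈ Λ, ω l = 0} * M ^ T ≤ M ^ (p ^ 2)`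
(`#{ω | ∀ l ∈ Λ, ω l = 0} * M ^ Λ.card = M ^ (p ^ 2)`, compare `Andr_count` in
`Pool/Agent/FewNeg/Andr.lean`, or by induction on `Λ`).
(2) Let `ω` be bad, that is, let `NoMix c (Ls ω)` fail: there is `w` such that all lines through two
of its points are in `Ls ω`, and the points are not on a line. CASE A: some line `l` contains the
points with the indices in `I`, `R < I.card`. Some point `(j, (w j).1)`, `(w j).2` is not on `l`. Let
`f : Fin R → Fin k × Fin q` be an injective function with values `(i, (w i).1)`, `i ∈ I`, and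
`v = (j, (w j).1)`, `y = (w j).2`. For all `a : Fin R` the line `lin c (f a) v (l.1 + c (f a) * l.2) y` is
in `Ls ω` (`lin_symm` if `j < i`), and these `R` lines are different (`lin_off`). The number of the
`(l, v, y, f)` is `p ^ 2 * (k * q) * p * (k * q) ^ R`, and for each one for which these lines are
different the number of `ω` is bounded by (1): so the number `NA` of `ω` of this kind satisfies
`NA * M ^ R ≤ p ^ 3 * (k * q) ^ (R + 1) * M ^ (p ^ 2)`. CASE B: every line contains at most `R` of the
points. Then (`card_lines`, with `Lw` the set of the lines through two of the points; `T * (R * R) ≤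
k * (k - 1)` and `0 < R`) `Lw` has at least `T` elements. The number of the `w` is `(q * p) ^ k`, so
`NB * M ^ T ≤ (q * p) ^ k * M ^ (p ^ 2)`.
(3) By `hA` and `hB`, `NA * (4 * M) ≤ M ^ (p ^ 2)` and `NB * (4 * M) ≤ M ^ (p ^ 2)`, so the number of bad
`ω` is at most `M ^ (p ^ 2)` divided by `2 * M`; in particular some `ω` is good.
(4) `∑ ω, M * (Ls ω).card = p ^ 2 * M ^ (p ^ 2)` (exchange the sums; for every line the number of `ω`
with `ω l = 0`, times `M`, is `M ^ (p ^ 2)`). If `2 * M * (Ls ω).card < p ^ 2` for all good `ω`, then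
`2 * p ^ 2 * M ^ (p ^ 2) = ∑ ω, 2 * M * (Ls ω).card < p ^ 2 * #good + 2 * M * p ^ 2 * #bad ≤
2 * p ^ 2 * M ^ (p ^ 2)`, a contradiction.
-/

set_option autoImplicit false

namespace Pool.Agent.Clq

private lemma cnt {X : Type} [Fintype X] [DecidableEq X] {M : ℕ} (z : Fin M) (Λ : Finset X) :
    (Finset.univ.filter fun ω : X → Fin M => ∀ l ∈ Λ, ω l = z).card * M ^ Λ.card =
      M ^ Fintype.card X := by
  classical
  have h1 : (Finset.univ.filter fun ω : X → Fin M => ∀ l ∈ Λ, ω l = z) =
      Fintype.piFinset fun l => if l ∈ Λ then {z} else Finset.univ := by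
    ext ω
    rw [Finset.mem_filter, Fintype.mem_piFinset]
    constructor
    · rintro ⟨-, h⟩ l
      split_ifs with hl
      · exact Finset.mem_singleton.2 (h l hl)
      · exact Finset.mem_univ _
    · intro h
      refine ⟨Finset.mem_univ _, fun l hl => ?_⟩
      have h2 := h l
      rw [if_pos hl] at h2
      exact Finset.mem_singleton.1 h2
  rw [h1, Fintype.card_piFinset]
  have h2 : ∀ l : X, (if l ∈ Λ then ({z} : Finset (Fin M)) else Finset.univ).card =
      if l ∈ Λ then 1 else M := by
    intro l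
    split_ifs
    · rfl
    · simp
  rw [Finset.prod_congr rfl fun l _ => h2 l, Finset.prod_ite, Finset.prod_const,
    Finset.prod_const, one_pow, one_mul]
  have h3 : (Finset.univ.filter fun l => l ∉ Λ) = Λᶜ := by
    ext l
    simp
  rw [h3, Finset.card_compl, ← pow_add]
  congr 1
  have := Finset.card_le_univ Λ
  omega

private lemma cover {Y C : Type} [Fintype C] [DecidableEq Y] (B : Finset Y)
    (P : C → Finset Y) (A D M : ℕ) (hcov : ∀ ω ∈ B, ∃ e, ω ∈ P e)
    (hP : ∀ e, (P e).card * A ≤ D) (hA : 4 * M * Fintype.card C ≤ A) :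
    B.card * (4 * M) ≤ D := by
  have h1 : B ⊆ Finset.univ.biUnion P := fun ω hω => by
    obtain ⟨e, he⟩ := hcov ω hω
    exact Finset.mem_biUnion.2 ⟨e, Finset.mem_univ _, he⟩
  have h2 : B.card * A ≤ Fintype.card C * D :=
    calc B.card * A ≤ (∑ e, (P e).card) * A :=
          Nat.mul_le_mul_right _ ((Finset.card_le_card h1).trans Finset.card_biUnion_le)
      _ = ∑ e, (P e).card * A := Finset.sum_mul _ _ _
      _ ≤ ∑ e : C, D := Finset.sum_le_sum fun e _ => hP e
      _ = Fintype.card C * D := by simp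
  rcases Nat.eq_zero_or_pos (Fintype.card C) with h | h
  · have hE : IsEmpty C := Fintype.card_eq_zero_iff.1 h
    have hB : B = ∅ := by
      rw [Finset.eq_empty_iff_forall_notMem]
      intro ω hω
      obtain ⟨e, -⟩ := hcov ω hω
      exact hE.elim e
    simp [hB]
  · apply Nat.le_of_mul_le_mul_left _ h
    calc Fintype.card C * (B.card * (4 * M)) = B.card * (4 * M * Fintype.card C) := by ring
      _ ≤ B.card * A := Nat.mul_le_mul_left _ hA
      _ ≤ _ := h2

/-- the count of `ω` for which the values `g a` are different lines which are selected -/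
private lemma cntIm {X : Type} [Fintype X] [DecidableEq X] {M : ℕ} (hM : 0 < M) (z : Fin M)
    (Λ : Finset X) (T : ℕ) :
    (if T ≤ Λ.card then (Finset.univ.filter fun ω : X → Fin M => ∀ l ∈ Λ, ω l = z)
      else ∅).card * M ^ T ≤ M ^ Fintype.card X := by
  split_ifs with h
  · rw [← cnt z Λ]
    exact Nat.mul_le_mul_left _ (Nat.pow_le_pow_right hM h)
  · simp

theorem exists_lines {k q p : ℕ} [Fact p.Prime] (c : Fin k × Fin q → ZMod p)
    (hc : Function.Injective c) (R T M : ℕ) (hR : 0 < R) (hM : 0 < M)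
    (hT : T * (R * R) ≤ k * (k - 1))
    (hA : 4 * M * (p ^ 3 * (k * q) ^ (R + 1)) ≤ M ^ R)
    (hB : 4 * M * (q * p) ^ k ≤ M ^ T) :
    ∃ Ls : Finset (ZMod p × ZMod p), p ^ 2 ≤ 2 * M * Ls.card ∧ NoMix c Ls := by
  classical
  set z : Fin M := ⟨0, hM⟩ with hz
  have hcX : Fintype.card (ZMod p × ZMod p) = p ^ 2 := by
    rw [Fintype.card_prod, ZMod.card, sq]
  have hp : 0 < p := (Fact.out : p.Prime).pos
  set D : ℕ := M ^ p ^ 2 with hD
  have hD0 : 0 < D := pow_pos hM _
  set Ls : (ZMod p × ZMod p → Fin M) → Finset (ZMod p × ZMod p) := fun ω =>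
    Finset.univ.filter fun l => ω l = z with hLs
  have hmem : ∀ ω l, l ∈ Ls ω ↔ ω l = z := by
    intro ω l
    simp [hLs]
  -- case A
  set LA : (ZMod p × ZMod p) × (Fin k × Fin q) × ZMod p × (Fin R → Fin k × Fin q) →
      Finset (ZMod p × ZMod p) := fun e => Finset.univ.image fun a : Fin R =>
        lin c (e.2.2.2 a) e.2.1 (e.1.1 + c (e.2.2.2 a) * e.1.2) e.2.2.1 with hLA
  set PA : (ZMod p × ZMod p) × (Fin k × Fin q) × ZMod p × (Fin R → Fin k × Fin q) →
      Finset (ZMod p × ZMod p → Fin M) := fun e =>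
        if R ≤ (LA e).card then (Finset.univ.filter fun ω => ∀ l ∈ LA e, ω l = z) else ∅ with hPA
  -- case B
  set LB : (Fin k → Fin q × ZMod p) → Finset (ZMod p × ZMod p) := fun w =>
    (Finset.univ.filter fun ij : Fin k × Fin k => ij.1 < ij.2).image fun ij =>
      lin c (ij.1, (w ij.1).1) (ij.2, (w ij.2).1) (w ij.1).2 (w ij.2).2 with hLB
  set PB : (Fin k → Fin q × ZMod p) → Finset (ZMod p × ZMod p → Fin M) := fun w =>
        if T ≤ (LB w).card then (Finset.univ.filter fun ω => ∀ l ∈ LB w, ω l = z) else ∅ with hPB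
  set BA : Finset (ZMod p × ZMod p → Fin M) := Finset.univ.filter fun ω => ∃ e, ω ∈ PA e with hBA
  set BB : Finset (ZMod p × ZMod p → Fin M) := Finset.univ.filter fun ω => ∃ e, ω ∈ PB e with hBB
  have hNA : BA.card * (4 * M) ≤ D := by
    refine cover BA PA (M ^ R) D M (fun ω hω => ?_) (fun e => ?_) ?_
    · rw [hBA, Finset.mem_filter] at hω
      exact hω.2
    · rw [hD, ← hcX]
      exact cntIm hM z _ _
    · have : Fintype.card ((ZMod p × ZMod p) × (Fin k × Fin q) × ZMod p ×
          (Fin R → Fin k × Fin q)) = p ^ 3 * (k * q) ^ (R + 1) := by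
        simp only [Fintype.card_prod, ZMod.card, Fintype.card_fin, Fintype.card_fun]
        ring
      rw [this]
      exact hA
  have hNB : BB.card * (4 * M) ≤ D := by
    refine cover BB PB (M ^ T) D M (fun ω hω => ?_) (fun e => ?_) ?_
    · rw [hBB, Finset.mem_filter] at hω
      exact hω.2
    · rw [hD, ← hcX]
      exact cntIm hM z _ _
    · have : Fintype.card (Fin k → Fin q × ZMod p) = (q * p) ^ k := by
        simp only [Fintype.card_prod, ZMod.card, Fintype.card_fin, Fintype.card_fun]
      rw [this]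
      exact hB
  -- every bad choice is in one of the two sets
  have hbad : ∀ ω, ¬ NoMix c (Ls ω) → ω ∈ BA ∪ BB := by
    intro ω hω
    unfold NoMix at hω
    push Not at hω
    obtain ⟨w, hw1, hw2⟩ := hω
    rw [Finset.mem_union]
    have hw3 : ∀ i j : Fin k, i ≠ j →
        lin c (i, (w i).1) (j, (w j).1) (w i).2 (w j).2 ∈ Ls ω := by
      intro i j hij
      rcases lt_or_gt_of_ne hij with h | h
      · exact hw1 i j h
      · rw [lin_symm (fun h2 => hij (Prod.ext_iff.1 (hc h2)).1)]
        exact hw1 j i h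
    by_cases hcase : ∀ l : ZMod p × ZMod p, ∀ I : Finset (Fin k),
        (∀ i ∈ I, OnL c l (i, (w i).1) (w i).2) → I.card ≤ R
    · right
      rw [hBB, Finset.mem_filter]
      refine ⟨Finset.mem_univ _, w, ?_⟩
      have h1 : k * (k - 1) ≤ (LB w).card * (R * R) := by
        refine card_lines hc w R hcase (LB w) fun i j hij => ?_
        rw [hLB]
        exact Finset.mem_image.2 ⟨(i, j), Finset.mem_filter.2 ⟨Finset.mem_univ _, hij⟩, rfl⟩
      have h2 : T ≤ (LB w).card :=
        Nat.le_of_mul_le_mul_right (hT.trans h1) (Nat.mul_pos hR hR)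
      simp only [hPB, if_pos h2]
      rw [Finset.mem_filter]
      refine ⟨Finset.mem_univ _, fun l hl => ?_⟩
      rw [hLB] at hl
      obtain ⟨ij, hij, rfl⟩ := Finset.mem_image.1 hl
      exact (hmem _ _).1 (hw1 _ _ (Finset.mem_filter.1 hij).2)
    · left
      push Not at hcase
      obtain ⟨l, I, hI, hIR⟩ := hcase
      obtain ⟨j, hj⟩ := hw2 l
      set f : Fin R → Fin k := fun a => I.orderEmbOfFin rfl (Fin.castLE hIR.le a) with hf
      have hfI : ∀ a, f a ∈ I := fun a => Finset.orderEmbOfFin_mem _ _ _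
      have hfinj : Function.Injective f := by
        intro a b hab
        exact Fin.castLE_injective _ ((I.orderEmbOfFin rfl).injective hab)
      have hfj : ∀ a, f a ≠ j := by
        intro a ha
        apply hj
        rw [← ha]
        exact hI _ (hfI a)
      rw [hBA, Finset.mem_filter]
      refine ⟨Finset.mem_univ _, (l, (j, (w j).1), (w j).2, fun a => (f a, (w (f a)).1)), ?_⟩
      have hg : ∀ a, lin c (f a, (w (f a)).1) (j, (w j).1) (l.1 + c (f a, (w (f a)).1) * l.2)
          (w j).2 = lin c (f a, (w (f a)).1) (j, (w j).1) (w (f a)).2 (w j).2 := by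
        intro a
        have h1 : (w (f a)).2 = l.1 + c (f a, (w (f a)).1) * l.2 := hI _ (hfI a)
        rw [← h1]
      have h2 : R ≤ (LA (l, (j, (w j).1), (w j).2, fun a => (f a, (w (f a)).1))).card := by
        simp only [hLA]
        rw [Finset.card_image_of_injective, Finset.card_univ, Fintype.card_fin]
        intro a b hab
        by_contra hne
        simp only [hg] at hab
        refine lin_off (c := c) ?_ ?_ ?_ (hI _ (hfI a)) (hI _ (hfI b)) hj hab
        · exact fun h3 => hne (hfinj (Prod.ext_iff.1 (hc h3)).1)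
        · exact fun h3 => hfj a (Prod.ext_iff.1 (hc h3)).1
        · exact fun h3 => hfj b (Prod.ext_iff.1 (hc h3)).1
      simp only [hPA, if_pos h2]
      rw [Finset.mem_filter]
      refine ⟨Finset.mem_univ _, fun l' hl' => ?_⟩
      rw [hLA] at hl'
      obtain ⟨a, -, rfl⟩ := Finset.mem_image.1 hl'
      simp only [hg]
      exact (hmem _ _).1 (hw3 _ _ (hfj a))
  set bad : Finset (ZMod p × ZMod p → Fin M) :=
    Finset.univ.filter fun ω => ¬ NoMix c (Ls ω) with hbaddef
  have hbadc : bad.card * (2 * M) ≤ D := by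
    have h1 : bad.card ≤ BA.card + BB.card := by
      refine le_trans (Finset.card_le_card fun ω hω => ?_) (Finset.card_union_le _ _)
      rw [hbaddef, Finset.mem_filter] at hω
      exact hbad ω hω.2
    have h2 := Nat.mul_le_mul_right (4 * M) h1
    rw [add_mul] at h2
    have h3 : bad.card * (4 * M) = 2 * (bad.card * (2 * M)) := by ring
    omega
  -- the sum of the sizes
  have hsum : ∑ ω : ZMod p × ZMod p → Fin M, 2 * M * (Ls ω).card = 2 * (p ^ 2 * D) := by
    have h1 : ∀ ω : ZMod p × ZMod p → Fin M, (Ls ω).card =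
        ∑ l : ZMod p × ZMod p, if ω l = z then 1 else 0 := by
      intro ω
      rw [hLs, Finset.card_filter]
    have h2 : ∀ l : ZMod p × ZMod p, M * (∑ ω : ZMod p × ZMod p → Fin M,
        if ω l = z then 1 else 0) = D := by
      intro l
      rw [← Finset.card_filter]
      have h3 := cnt z ({l} : Finset (ZMod p × ZMod p))
      simp only [Finset.mem_singleton, forall_eq, Finset.card_singleton, pow_one] at h3
      rw [hcX] at h3
      rw [hD, ← h3, mul_comm]
    rw [← Finset.mul_sum, Finset.sum_congr rfl fun ω _ => h1 ω, Finset.sum_comm, mul_assoc,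
      Finset.mul_sum, Finset.sum_congr rfl fun l _ => h2 l]
    simp only [Finset.sum_const, Finset.card_univ, hcX, smul_eq_mul]
  by_contra hcon
  push Not at hcon
  have hgood : ∀ ω, NoMix c (Ls ω) → 2 * M * (Ls ω).card ≤ p ^ 2 - 1 := by
    intro ω hω
    by_contra h1
    exact hcon (Ls ω) (by omega) hω
  have hcard : ∀ ω, (Ls ω).card ≤ p ^ 2 := by
    intro ω
    rw [← hcX]
    exact Finset.card_le_univ _
  have htot : Fintype.card (ZMod p × ZMod p → Fin M) = D := by
    rw [Fintype.card_fun, Fintype.card_fin, hcX]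
  have h1 : ∑ ω : ZMod p × ZMod p → Fin M, 2 * M * (Ls ω).card ≤
      ∑ ω : ZMod p × ZMod p → Fin M, ((p ^ 2 - 1) +
        (if ω ∈ bad then 2 * M * p ^ 2 else 0)) := by
    refine Finset.sum_le_sum fun ω _ => ?_
    by_cases hω : NoMix c (Ls ω)
    · exact (hgood ω hω).trans (Nat.le_add_right _ _)
    · have h2 : ω ∈ bad := by
        rw [hbaddef, Finset.mem_filter]
        exact ⟨Finset.mem_univ _, hω⟩
      rw [if_pos h2]
      exact (Nat.mul_le_mul_left _ (hcard ω)).trans (Nat.le_add_left _ _)
  rw [hsum, Finset.sum_add_distrib, Finset.sum_const, Finset.card_univ, htot, ← Finset.sum_filter,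
    Finset.filter_mem_eq_inter, Finset.univ_inter, Finset.sum_const, smul_eq_mul, smul_eq_mul] at h1
  have h2 : bad.card * (2 * M * p ^ 2) ≤ D * p ^ 2 := by
    calc bad.card * (2 * M * p ^ 2) = bad.card * (2 * M) * p ^ 2 := by ring
      _ ≤ D * p ^ 2 := Nat.mul_le_mul_right _ hbadc
  have h3 : D * (p ^ 2 - 1) + D = D * p ^ 2 := by
    have h4 : p ^ 2 = (p ^ 2 - 1) + 1 := by
      have : 0 < p ^ 2 := pow_pos hp 2
      omega
    conv_rhs => rw [h4, mul_add, mul_one]
  have h5 : p ^ 2 * D = D * p ^ 2 := mul_comm _ _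
  omega

end Pool.Agent.Clq
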