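import Mathlib
import Pool.Agent.Clq.Mono
import Pool.Agent.Clq.Select
import Pool.Agent.Clq.Embed
import Pool.Agent.Clq.RandG
import Pool.Agent.TAvg.Minimax

/-!
# The clique function is hard on average for circuits with few NOT gates

PACKAGE. Prove `clique_avg` from the other packages (assembly, numbers; helper lemmas allowed, keep
the statement).

PROOF. Let `C = 2 ^ 130`, `A' = log (n + s + e) + 1`, let the hypotheses hold and suppose that there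
is no hard distribution. `minimax_bool` (`X = Edge n → Bool`) gives `K' > 0` and `g i` with
`DecidesE S s P (g i)`, so `P ≥ 1` (`Game.Le.pos`). Let `A = 3 * A'`.
(0) `n, s, e < 2 ^ A'`. As `C ((P - 1) e + 1 + S.card) A' ^ 16 < (n - K) ^ 2 ≤ n ^ 2`, we have
`P ≤ n ^ 2 < 2 ^ (2 A')`, `P < 2 ^ A`, and `K < n`.
(1) Parameters: `a = 32 A`, `q = 8 a = 256 A`, `k = 2048 A ^ 3 + 1`, `m = k q ≤ 2 ^ 20 A ^ 4`,
`R = 8 A`, `T = (k + 4) A`, `M = 2 m`. `X = (n - K) / m`, and `p` is a prime with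
`X / 2 < p ≤ 2 (X / 2)` (`Nat.exists_prime_lt_and_le_two_mul`); so `n - K < 2 m p`, `m p ≤ n - K`.
`2 ^ 41 A ^ 8 ≤ n - K` since `(2 ^ 41 A ^ 8) ^ 2 = 2 ^ 82 3 ^ 16 A' ^ 16 ≤ C A' ^ 16`; so `X ≥ 2 m`
and `p > m`; `c u` is the number of `u` in an enumeration `Fin k × Fin q ≃ Fin (k * q)`, cast to
`ZMod p`, it is injective. `k ≤ K` (`2048 * 27 A' ^ 3 + 1 ≤ C A' ^ 3 ≤ K`), so
`k q p + (K - k) ≤ n - K + K = n`.
(2) `hT`: `T R ^ 2 = 64 A ^ 3 (k + 4) ≤ k (k - 1) = 2048 A ^ 3 k`. `hA`: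
`4 M p ^ 3 m ^ (R + 1) = 8 p ^ 3 m ^ 2 m ^ R`, `p, m ≤ n < 2 ^ A`, so
`8 p ^ 3 m ^ 2 ≤ 2 ^ (3 + 5 A) ≤ 2 ^ R`, `M ^ R = 2 ^ R m ^ R`. `hB`:
`4 M (q p) ^ k ≤ 8 * 2 ^ A * 2 ^ (A k) ≤ 2 ^ ((k + 4) A) ≤ M ^ T`. `exists_lines` gives `Ls` with
`p ^ 2 ≤ 4 m Ls.card`, so `(n - K) ^ 2 ≤ 4 m ^ 2 p ^ 2 ≤ 16 m ^ 3 Ls.card ≤ 2 ^ 64 A ^ 12 Ls.card`.
With `C ((P - 1) e + 1 + S.card) A' ^ 16 < (n - K) ^ 2` and
`A ^ 12 = 3 ^ 12 A' ^ 12 ≤ 2 ^ 20 A' ^ 16`: `2 ((P - 1) e + 1 + S.card) ≤ Ls.card`. `embed` gives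
`B`, `σ`, and `(P - 1) (2 e) + 1 ≤ B.card`.
(3) `rand_lower_gen` gives `M' ≤ 64 e ^ 2 (m ^ 2 + 1)` and a circuit for `pclF k (8 a)` with
`t = M' (P (s + 1)) + M' (M' + 1)` gates, and `pcl_size` (`2 a ^ 2 + 1 = 2048 A ^ 2 + 1 ≤ k`) gives
`2 ^ a ≤ t`. But `m ^ 2 + 1 ≤ n ^ 2 + 1 ≤ 2 ^ (2 A)`, `M' ≤ 2 ^ (6 + 4 A)`,
`P (s + 1) ≤ 2 ^ (2 A)`, `t ≤ 2 ^ (6 + 6 A) + 2 ^ (13 + 8 A) < 2 ^ (32 A)`, a contradiction.
(`pclF k q` is `false` at the constant `false` since `2 ≤ k`.)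
-/

set_option autoImplicit false

namespace Pool.Agent.Clq

open Pool.Agent.FewNeg Pool.Agent.CGame Pool.Agent.TAvg

private theorem Final_m {A : ℕ} :
    (2048 * A ^ 3 + 1) * (256 * A) ≤ 2 ^ 20 * A ^ 4 := by
  have h1 : A ≤ A ^ 4 := Nat.le_self_pow (by norm_num) A
  have h2 : (2048 * A ^ 3 + 1) * (256 * A) = 524288 * A ^ 4 + 256 * A := by ring
  rw [h2]
  norm_num
  omega

/-- The prime number. -/
private theorem Final_prime {m D : ℕ} (hm : 0 < m) (h : 2 * (m * m) ≤ D) :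
    ∃ p : ℕ, p.Prime ∧ m < p ∧ m * p ≤ D ∧ D < 2 * (m * p) := by
  set X := D / m with hX
  have hX1 : 2 * m ≤ X := by
    rw [hX, Nat.le_div_iff_mul_le hm, mul_assoc]
    exact h
  have h0 : X / 2 ≠ 0 := by omega
  obtain ⟨p, hp, h1, h2⟩ := Nat.exists_prime_lt_and_le_two_mul (X / 2) h0
  have h3 : m * X ≤ D := Nat.mul_div_le D m
  have h4 : D < m * (X + 1) := Nat.lt_mul_div_succ D hm
  refine ⟨p, hp, by omega, ?_, ?_⟩
  · calc m * p ≤ m * X := Nat.mul_le_mul_left _ (by omega)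
      _ ≤ D := h3
  · calc D < m * (X + 1) := h4
      _ ≤ m * (2 * p) := Nat.mul_le_mul_left _ (by omega)
      _ = 2 * (m * p) := by ring

private theorem Final_D {A' D m : ℕ} (hD : 2 ^ 130 * A' ^ 16 < D ^ 2)
    (hm : m ≤ 2 ^ 20 * (3 * A') ^ 4) : 2 * (m * m) ≤ D := by
  have h1 : (2 * (m * m)) ^ 2 < D ^ 2 := by
    calc (2 * (m * m)) ^ 2 ≤
        (2 * ((2 ^ 20 * (3 * A') ^ 4) * (2 ^ 20 * (3 * A') ^ 4))) ^ 2 := by gcongr
      _ = (2 ^ 82 * 3 ^ 16) * A' ^ 16 := by ring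
      _ ≤ 2 ^ 130 * A' ^ 16 := Nat.mul_le_mul_right _ (by norm_num)
      _ < D ^ 2 := hD
  exact (lt_of_pow_lt_pow_left₀ 2 (Nat.zero_le _) h1).le

private theorem Final_hA {m p A : ℕ} (hA : 1 ≤ A) (hp : p ≤ 2 ^ A) (hm : m ≤ 2 ^ A) :
    4 * (2 * m) * (p ^ 3 * m ^ (8 * A + 1)) ≤ (2 * m) ^ (8 * A) := by
  have h1 : 8 * p ^ 3 * m ^ 2 ≤ 2 ^ (8 * A) := by
    calc 8 * p ^ 3 * m ^ 2 ≤ 8 * (2 ^ A) ^ 3 * (2 ^ A) ^ 2 := by gcongr
      _ = 2 ^ (3 + 5 * A) := by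
        rw [pow_add, pow_mul', mul_assoc, ← pow_add]
        norm_num
      _ ≤ 2 ^ (8 * A) := Nat.pow_le_pow_right (by norm_num) (by omega)
  calc 4 * (2 * m) * (p ^ 3 * m ^ (8 * A + 1)) = (8 * p ^ 3 * m ^ 2) * m ^ (8 * A) := by ring
    _ ≤ 2 ^ (8 * A) * m ^ (8 * A) := Nat.mul_le_mul_right _ h1
    _ = (2 * m) ^ (8 * A) := (mul_pow _ _ _).symm

private theorem Final_hB {m y k A : ℕ} (hA : 1 ≤ A) (hy : y ≤ 2 ^ A) (hm : m ≤ 2 ^ A)
    (hm0 : 1 ≤ m) : 4 * (2 * m) * y ^ k ≤ (2 * m) ^ ((k + 4) * A) := by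
  calc 4 * (2 * m) * y ^ k ≤ 4 * (2 * 2 ^ A) * (2 ^ A) ^ k := by gcongr
    _ = 2 ^ (3 + A + A * k) := by
      rw [pow_add, pow_add, pow_mul]
      ring
    _ ≤ 2 ^ ((k + 4) * A) := Nat.pow_le_pow_right (by norm_num) (by nlinarith)
    _ ≤ (2 * m) ^ ((k + 4) * A) := Nat.pow_le_pow_left (by omega) _

private theorem Final_count {A' D m p N L : ℕ} (hA : 1 ≤ A')
    (hD : 2 ^ 130 * N * A' ^ 16 < D ^ 2) (hm : m ≤ 2 ^ 20 * (3 * A') ^ 4)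
    (hDp : D < 2 * (m * p)) (hp : p ^ 2 ≤ 2 * (2 * m) * L) : 2 * N ≤ L := by
  by_contra hcon
  have h1 : D ^ 2 ≤ 2 ^ 84 * A' ^ 16 * L := by
    calc D ^ 2 ≤ (2 * (m * p)) ^ 2 := Nat.pow_le_pow_left hDp.le 2
      _ = 4 * m ^ 2 * p ^ 2 := by ring
      _ ≤ 4 * m ^ 2 * (2 * (2 * m) * L) := Nat.mul_le_mul_left _ hp
      _ = 16 * m ^ 3 * L := by ring
      _ ≤ 16 * (2 ^ 20 * (3 * A') ^ 4) ^ 3 * L := by gcongr
      _ = (2 ^ 64 * 3 ^ 12) * A' ^ 12 * L := by ring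
      _ ≤ 2 ^ 84 * A' ^ 16 * L := by
        refine Nat.mul_le_mul_right _ (Nat.mul_le_mul (by norm_num) ?_)
        exact Nat.pow_le_pow_right hA (by norm_num)
  have h2 : 2 ^ 84 * A' ^ 16 * L ≤ 2 ^ 130 * N * A' ^ 16 := by
    calc 2 ^ 84 * A' ^ 16 * L ≤ 2 ^ 84 * A' ^ 16 * (2 * N) := Nat.mul_le_mul_left _ (by omega)
      _ = 2 ^ 85 * (N * A' ^ 16) := by ring
      _ ≤ 2 ^ 130 * (N * A' ^ 16) := Nat.mul_le_mul_right _ (by norm_num)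
      _ = 2 ^ 130 * N * A' ^ 16 := by ring
  omega

private theorem Final_t {A M e m y : ℕ} (hA : 1 ≤ A) (he : e ≤ 2 ^ A)
    (hm : m ^ 2 + 1 ≤ 2 ^ (2 * A)) (hM : M ≤ 64 * e ^ 2 * (m ^ 2 + 1)) (hy : y ≤ 2 ^ (2 * A)) :
    M * y + M * (M + 1) < 2 ^ (32 * A) := by
  have h1 : M ≤ 2 ^ (6 + 4 * A) := by
    calc M ≤ 64 * e ^ 2 * (m ^ 2 + 1) := hM
      _ ≤ 64 * (2 ^ A) ^ 2 * 2 ^ (2 * A) := by gcongr
      _ = 2 ^ (6 + 4 * A) := by ring
  have h2 : M + 1 ≤ 2 ^ (7 + 4 * A) := by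
    have h3 : 2 ^ (7 + 4 * A) = 2 * 2 ^ (6 + 4 * A) := by ring
    have h4 : 1 ≤ 2 ^ (6 + 4 * A) := Nat.one_le_two_pow
    omega
  calc M * y + M * (M + 1) ≤
      2 ^ (6 + 4 * A) * 2 ^ (2 * A) + 2 ^ (6 + 4 * A) * 2 ^ (7 + 4 * A) := by gcongr
    _ = 2 ^ (6 + 6 * A) + 2 ^ (13 + 8 * A) := by ring
    _ ≤ 2 ^ (13 + 8 * A) + 2 ^ (13 + 8 * A) :=
      Nat.add_le_add_right (Nat.pow_le_pow_right (by norm_num) (by omega)) _
    _ = 2 ^ (14 + 8 * A) := by ring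
    _ < 2 ^ (32 * A) := Nat.pow_lt_pow_right (by norm_num) (by omega)

private theorem Final_zero {k q : ℕ} (hk : 2 ≤ k) : pclF k q (fun _ => false) = false := by
  unfold pclF
  rw [decide_eq_false_iff_not]
  rintro ⟨g, hg⟩
  have := hg ⟨0, by omega⟩ ⟨1, by omega⟩ (by simp)
  simp at this

theorem clique_avg : ∃ C : ℕ, ∀ (n K e s P : ℕ) (S : Finset (Edge n)), 1 ≤ e →
    C * (Nat.log 2 (n + s + e) + 1) ^ 3 ≤ K →
    C * ((P - 1) * e + 1 + S.card) * (Nat.log 2 (n + s + e) + 1) ^ 16 < (n - K) ^ 2 →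
      HardDist (DecidesE S s P) (cliqueF n K) e := by
  refine ⟨2 ^ 130, fun n K e s P S he hK hS => ?_⟩
  classical
  by_contra hcon
  obtain ⟨K', g, hK', hg, hgf⟩ := minimax_bool (X := Edge n → Bool) (DecidesE S s P)
    (cliqueF n K) he hcon
  have hP : 1 ≤ P := by
    obtain ⟨d, G, -, h2, -⟩ := hg ⟨0, hK'⟩
    exact Game.Le.pos (h2 fun _ => false)
  set A' := Nat.log 2 (n + s + e) + 1 with hA'
  have hA1 : 1 ≤ A' := Nat.le_add_left _ _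
  have h0 : n + s + e < 2 ^ A' := Nat.lt_pow_succ_log_self (by norm_num) _
  -- the set of variables and the number of rounds
  set N := (P - 1) * e + 1 + S.card with hN
  have hN1 : 1 ≤ N := by omega
  have hPN : P ≤ N := by
    have h1 : (P - 1) * 1 ≤ (P - 1) * e := Nat.mul_le_mul_left _ he
    omega
  set D := n - K with hD
  have hDn : D ≤ n := Nat.sub_le _ _
  have hCD : 2 ^ 130 * A' ^ 16 < D ^ 2 := by
    refine lt_of_le_of_lt ?_ hS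
    refine Nat.mul_le_mul_right _ ?_
    exact Nat.le_mul_of_pos_right _ hN1
  have hD0 : 0 < D := by
    rcases Nat.eq_zero_or_pos D with h | h
    · rw [h] at hCD
      simp at hCD
    · exact h
  have hPn : P < 2 ^ (2 * A') := by
    have h1 : N ≤ 2 ^ 130 * N * A' ^ 16 := by
      have h2 : 1 ≤ 2 ^ 130 * A' ^ 16 := Nat.one_le_iff_ne_zero.2 (by positivity)
      calc N = N * 1 := (mul_one N).symm
        _ ≤ N * (2 ^ 130 * A' ^ 16) := Nat.mul_le_mul_left _ h2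
        _ = 2 ^ 130 * N * A' ^ 16 := by ring
    calc P ≤ N := hPN
      _ < D ^ 2 := lt_of_le_of_lt h1 hS
      _ ≤ (2 ^ A') ^ 2 := Nat.pow_le_pow_left (by omega) 2
      _ = 2 ^ (2 * A') := by rw [← pow_mul, mul_comm]
  -- the parameters
  set A := 3 * A' with hA
  have hA3 : 1 ≤ A := by omega
  have hpow : 2 ^ A' ≤ 2 ^ A := Nat.pow_le_pow_right (by norm_num) (by omega)
  set k := 2048 * A ^ 3 + 1 with hk
  set q := 8 * (32 * A) with hq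
  have hq' : q = 256 * A := by rw [hq]; ring
  set m := k * q with hm
  have hmA : m ≤ 2 ^ 20 * (3 * A') ^ 4 := by
    rw [hm, hk, hq']
    exact Final_m
  have hk2 : 2 ≤ k := by
    have : 1 ≤ A ^ 3 := Nat.one_le_pow _ _ hA3
    omega
  have hq0 : 0 < q := by omega
  have hm0 : 0 < m := Nat.mul_pos (by omega) hq0
  obtain ⟨p, hp, hmp, hpD, hDp⟩ := Final_prime hm0 (Final_D hCD hmA)
  have : Fact p.Prime := ⟨hp⟩
  have hmpn : m * p ≤ n := hpD.trans hDn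
  have hpA : p ≤ 2 ^ A := by
    have h1 : 1 * p ≤ m * p := Nat.mul_le_mul_right _ hm0
    omega
  have hmn : m < n := by
    have h1 : m * 2 ≤ m * p := Nat.mul_le_mul_left _ hp.two_le
    omega
  have hmA2 : m ≤ 2 ^ A := by omega
  -- the numbers of the vertices
  set c : Fin k × Fin q → ZMod p := fun u => ((finProdFinEquiv u : Fin (k * q)) : ℕ) with hc
  have hcinj : Function.Injective c := by
    intro u v huv
    rw [hc] at huv
    simp only at huv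
    rw [ZMod.natCast_eq_natCast_iff', Nat.mod_eq_of_lt ((finProdFinEquiv u).2.trans hmp),
      Nat.mod_eq_of_lt ((finProdFinEquiv v).2.trans hmp)] at huv
    exact finProdFinEquiv.injective (Fin.ext huv)
  have hkK : k ≤ K := by
    refine le_trans ?_ hK
    have h1 : 1 ≤ A' ^ 3 := Nat.one_le_pow _ _ hA1
    have h2 : k = 55296 * A' ^ 3 + 1 := by rw [hk, hA]; ring
    rw [h2]
    have h3 : (55297 : ℕ) ≤ 2 ^ 130 := by norm_num
    have h4 : 55297 * A' ^ 3 ≤ 2 ^ 130 * A' ^ 3 := Nat.mul_le_mul_right _ h3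
    omega
  have hn : k * q * p + (K - k) ≤ n := by
    rw [← hm]
    omega
  -- the lines
  obtain ⟨Ls, hLs, hLs'⟩ := exists_lines c hcinj (8 * A) ((k + 4) * A) (2 * m) (by omega)
    (by omega) (by
      have h1 : k - 1 = 2048 * A ^ 3 := by omega
      rw [h1]
      calc (k + 4) * A * (8 * A * (8 * A)) = (64 * A ^ 3) * (k + 4) := by ring
        _ ≤ (64 * A ^ 3) * (32 * k) := Nat.mul_le_mul_left _ (by omega)
        _ = k * (2048 * A ^ 3) := by ring) (by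
      rw [← hm]
      exact Final_hA hA3 hpA hmA2) (by
      refine Final_hB hA3 ?_ hmA2 hm0
      refine le_trans ?_ (hmpn.trans (by omega : n ≤ 2 ^ A))
      refine Nat.mul_le_mul_right _ ?_
      rw [hm]
      exact Nat.le_mul_of_pos_left _ (by omega))
  have hcount : 2 * N ≤ Ls.card := Final_count hA1 hS hmA hDp hLs
  obtain ⟨B, σ, hB, hσ, hemb⟩ := embed hk2 hkK hn c hcinj S Ls hLs'
  have hBc : (P - 1) * (2 * e) + 1 ≤ B.card := by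
    have h1 : (P - 1) * (2 * e) = 2 * ((P - 1) * e) := by ring
    omega
  obtain ⟨M, d, hM, hcomp⟩ := rand_lower_gen (F := pclF k q) (Final_zero hk2) hσ hemb he hK' g hg
    hgf hBc
  have hsize := pcl_size (32 * A) k _ d (by omega) (by
    have h1 : A ^ 2 ≤ A ^ 3 := Nat.pow_le_pow_right hA3 (by norm_num)
    calc 2 * (32 * A) ^ 2 + 1 = 2048 * A ^ 2 + 1 := by ring
      _ ≤ k := by omega) hcomp
  have hcard : Fintype.card ((Fin k × Fin q) × (Fin k × Fin q)) = m ^ 2 := by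
    rw [Fintype.card_prod, Fintype.card_prod, Fintype.card_fin, Fintype.card_fin, hm]
    ring
  rw [hcard] at hM
  refine absurd hsize (not_le.2 (Final_t hA3 (by omega) ?_ hM ?_))
  · calc m ^ 2 + 1 ≤ n ^ 2 := by nlinarith
      _ ≤ (2 ^ A) ^ 2 := Nat.pow_le_pow_left (by omega) 2
      _ = 2 ^ (2 * A) := by rw [← pow_mul, mul_comm]
  · calc P * (s + 1) ≤ 2 ^ (2 * A') * 2 ^ A' := Nat.mul_le_mul hPn.le (by omega)
      _ = 2 ^ A := by rw [← pow_add, show 2 * A' + A' = A by omega]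
      _ ≤ 2 ^ (2 * A) := Nat.pow_le_pow_right (by norm_num) (by omega)

end Pool.Agent.Clq
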